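import Pool.Agent.N739.LL.Key

/-!
# The local one-sided theorem
-/

set_option autoImplicit false

open MeasureTheory Filter Topology Set

namespace Pool.Agent.N739.LL

open Pool.Agent.N739.LW
open H370 (mult)

noncomputable section

variable {G g : ℂ → ℂ} {a : ℕ → ℂ}

theorem LG.param (h : LG G g a) (hdens : Dens G) (hreal : ∀ n, (a n).im = 0) {θ : ℝ} (hθ : 0 < θ)
    (hθ1 : θ ≤ 1 / 2) :
    ∃ L : ℝ, 0 ≤ L ∧ ∀ ε : ℝ, 0 < ε → ∀ᶠ U : ℝ in atTop, ∃ (l : List (ℝ × ℝ)) (M : ℕ) (δ R0 R1 : ℝ),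
      Ok l ∧ shift l ≤ L ∧ mass l ≤ Real.exp (ε * U) ∧ 0 < δ ∧ (M + 2) * δ ≤ 1 / 4 ∧ 0 ≤ R0 ∧ R0 ≤ R1 ∧
      |PhR l M δ (3 / 4) (Dr a) U - R0| ≤ Real.exp ((θ + ε) * U) ∧
      |PhR l M δ (3 / 4) (Dr a) (U + 1 / 2) - R1| ≤ Real.exp ((θ + ε) * U) ∧
      ((∀ x : ℝ, 0 < x → G x ≠ 0) → R0 = 0 ∧ R1 = 0) := by
  obtain ⟨L, hL, hshift⟩ := shift_bdd h hdens hθ hθ1
  obtain ⟨C, hC, hkey⟩ := LG.posKey h hreal hθ (by linarith)
  obtain ⟨C', hC', hcount⟩ := hdens (1 / 2) θ (by norm_num) hθ hθ1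
  refine ⟨L, hL, fun ε hε => ?_⟩
  set b : ℝ := 1 - 1 / 2 * θ with hb
  have hb0 : 0 < b := by rw [hb]; linarith
  set c0 : ℝ := ε / (4 * 500 * C') with hc0
  have hc00 : 0 < c0 := by positivity
  have e1 : ∀ᶠ U : ℝ in atTop, ‖Real.log (500 * U)‖ ≤ c0 * ‖(500 * U) ^ (1 - b)‖ := by
    have h1 := (isLittleO_log_rpow_atTop (show 0 < 1 - b by rw [hb]; linarith)).bound hc00
    exact (tendsto_id.const_mul_atTop (by norm_num : (0 : ℝ) < 500)).eventually h1
  set K : ℝ := C * 500 ^ 6 * (20 / θ * Real.exp (3 / 2 * L) * Real.exp (θ / 2)) with hK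
  have hK0 : 0 < K := by positivity
  have e2 : ∀ᶠ U : ℝ in atTop, K * U ^ 6 ≤ Real.exp (ε / 2 * U) := by
    have h1 := (isLittleO_pow_exp_pos_mul_atTop 6 (show 0 < ε / 2 by linarith)).bound (show 0 < K⁻¹ by positivity)
    filter_upwards [h1, eventually_ge_atTop (0 : ℝ)] with U h2 h3
    rw [Real.norm_of_nonneg (by positivity), Real.norm_of_nonneg (Real.exp_pos _).le] at h2
    calc K * U ^ 6 ≤ K * (K⁻¹ * Real.exp (ε / 2 * U)) := by gcongr
      _ = _ := by field_simp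
  filter_upwards [e1, e2, eventually_ge_atTop (5 : ℝ), eventually_ge_atTop C] with U f1 f2 f3 f4
  have hU0 : 0 < U := by linarith
  set M : ℕ := ⌈2 * U⌉₊ with hM
  have hM1 : 2 * U ≤ M := Nat.le_ceil _
  have hM2 : (M : ℝ) ≤ 2 * U + 1 := (Nat.ceil_lt_add_one (show 0 ≤ 2 * U by linarith)).le
  have hM0 : (0 : ℝ) < M := by linarith
  set δ : ℝ := 1 / (4 * (M + 2)) with hδ
  have hδ0 : 0 < δ := by positivity
  have hMδ : (M + 2) * δ = 1 / 4 := by rw [hδ]; field_simp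
  set T1 : ℝ := 30 / δ with hT1
  have hT1e : T1 = 120 * (M + 2) := by rw [hT1, hδ]; field_simp; ring
  have hT1C : C ≤ T1 := by rw [hT1e]; nlinarith
  obtain ⟨T, hT, hmain⟩ := hkey T1 hT1C
  have hTU : T ≤ 500 * U := by
    have := hT.2
    rw [hT1e] at this
    linarith
  have hT2 : 2 ≤ T := by
    have := hT.1
    rw [hT1e] at this
    linarith
  have hT0 : 0 < T := by linarith
  set l := zl (nr h hθ T) with hl0
  have hl : Ok l := zl_ok _
  have hexpM : ∀ x : ℝ, x ≤ U + 1 / 2 → Real.exp (3 / 2 * x) ≤ 10 ^ M := by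
    intro x hx
    calc Real.exp (3 / 2 * x) ≤ Real.exp (M * 2) := Real.exp_le_exp.2 (by linarith)
      _ = Real.exp 2 ^ M := by rw [← Real.exp_nat_mul]
      _ ≤ 10 ^ M := pow_le_pow_left₀ (Real.exp_pos _).le exp_two_le M
  -- the number of zeros
  have hn : ((nr h hθ T).card : ℝ) ≤ ε / 4 * U := by
    have h1 : ((nr h hθ T).card : ℝ) ≤ ((NZ G θ T).ncard : ℝ) := by exact_mod_cast nr_card h hθ T
    have h2 := hcount T hT2
    have hlogT : Real.log T ≤ Real.log (500 * U) := Real.log_le_log hT0 hTU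
    have hlogT0 : 0 ≤ Real.log T := Real.log_nonneg (by linarith)
    have h500 : 0 < 500 * U := by positivity
    have h3 : Real.log (500 * U) ≤ c0 * (500 * U) ^ (1 - b) := by
      rw [Real.norm_of_nonneg (Real.rpow_nonneg h500.le _)] at f1
      exact (Real.le_norm_self _).trans f1
    have h4 : T ^ b ≤ (500 * U) ^ b := Real.rpow_le_rpow hT0.le hTU hb0.le
    calc ((nr h hθ T).card : ℝ) ≤ C' * T ^ (1 - 1 / 2 * θ) * Real.log T := h1.trans h2
      _ = C' * T ^ b * Real.log T := by rw [hb]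
      _ ≤ C' * (500 * U) ^ b * (c0 * (500 * U) ^ (1 - b)) := by
          gcongr
          exact hlogT.trans h3
      _ = C' * c0 * ((500 * U) ^ b * (500 * U) ^ (1 - b)) := by ring
      _ = C' * c0 * (500 * U) := by
          rw [← Real.rpow_add h500]
          have : b + (1 - b) = 1 := by ring
          rw [this, Real.rpow_one]
      _ = ε / 4 * U := by rw [hc0]; field_simp
  have hmass : mass l ≤ Real.exp (ε / 4 * U) := by
    have h1 : mass l ≤ 2 ^ (nr h hθ T).card := zl_mass _ fun ρ hρ => (hθ.trans (mem_nr.1 hρ).1.2.1).le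
    refine h1.trans ?_
    calc (2 : ℝ) ^ (nr h hθ T).card ≤ Real.exp 1 ^ (nr h hθ T).card := by
          apply pow_le_pow_left₀ (by norm_num)
          linarith [Real.exp_one_gt_d9]
      _ = Real.exp ((nr h hθ T).card : ℝ) := by rw [← Real.exp_nat_mul, mul_one]
      _ ≤ _ := Real.exp_le_exp.2 hn
  have hmass0 := mass_ge hl
  have hsh := hshift T
  -- the error
  have herr : ∀ x : ℝ, x ≤ U + 1 / 2 → C * T ^ 6 * (WW θ l * Real.exp (θ * x)) ≤ Real.exp ((θ + ε) * U) := by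
    intro x hx
    have h1 : WW θ l ≤ 20 / θ * (Real.exp (ε / 4 * U) * Real.exp (3 / 2 * L)) := by
      unfold WW
      have e : 2 / θ * (2 * (mass l * Real.exp (3 / 2 * shift l))) * 5 =
        20 / θ * (mass l * Real.exp (3 / 2 * shift l)) := by ring
      rw [e]
      have : Real.exp (3 / 2 * shift l) ≤ Real.exp (3 / 2 * L) := Real.exp_le_exp.2 (by linarith)
      gcongr
    have h2 : Real.exp (θ * x) ≤ Real.exp (θ * U) * Real.exp (θ / 2) := by
      rw [← Real.exp_add]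
      apply Real.exp_le_exp.2
      nlinarith
    have h3 : T ^ 6 ≤ 500 ^ 6 * U ^ 6 := by
      calc T ^ 6 ≤ (500 * U) ^ 6 := pow_le_pow_left₀ hT0.le hTU 6
        _ = _ := by rw [mul_pow]
    have hW := WW_pos hθ hl
    calc C * T ^ 6 * (WW θ l * Real.exp (θ * x))
        ≤ C * (500 ^ 6 * U ^ 6) * ((20 / θ * (Real.exp (ε / 4 * U) * Real.exp (3 / 2 * L))) *
          (Real.exp (θ * U) * Real.exp (θ / 2))) := by gcongr
      _ = (K * U ^ 6) * (Real.exp (ε / 4 * U) * Real.exp (θ * U)) := by rw [hK]; ring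
      _ ≤ Real.exp (ε / 2 * U) * (Real.exp (ε / 4 * U) * Real.exp (θ * U)) := by gcongr
      _ = Real.exp (ε / 2 * U + (ε / 4 * U + θ * U)) := by rw [Real.exp_add, Real.exp_add]
      _ ≤ _ := Real.exp_le_exp.2 (by nlinarith)
  have hT1δ : 30 ≤ T1 * δ := by rw [hT1]; field_simp; exact le_rfl
  have hm := RR_mono h hθ T hl (U := U) (V := 2) hU0.le (by norm_num) M hδ0 (η := 3 / 4) (by norm_num)
    (k := 1 / 2) (by norm_num)
  refine ⟨l, M, δ, RR h hθ T l U 2 M δ (3 / 4), RR h hθ T l (U + 1 / 2) 2 M δ (3 / 4), hl, hsh, ?_, hδ0, hMδ.le,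
    hm.1, hm.2, ?_, ?_, ?_⟩
  · refine hmass.trans (Real.exp_le_exp.2 ?_)
    nlinarith
  · exact (hmain U δ M hU0.le hδ0 hMδ.le hT1δ (hexpM U (by linarith))).trans (herr U (by linarith))
  · exact (hmain (U + 1 / 2) δ M (by linarith) hδ0 hMδ.le hT1δ (hexpM _ le_rfl)).trans (herr _ le_rfl)
  · intro hx
    have hempty : (h.NZ_fin hθ T).toFinset.filter (fun ρ => ¬ ρ.im ≠ 0) = ∅ := by
      apply Finset.filter_eq_empty_iff.2
      intro ρ hρ h0
      rw [not_not] at h0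
      rw [Set.Finite.mem_toFinset] at hρ
      have e : ((ρ.re : ℝ) : ℂ) = ρ := by
        apply Complex.ext
        · simp
        · simp [h0]
      apply hx ρ.re (hθ.trans hρ.2.1)
      rw [e]
      exact hρ.1
    unfold RR
    rw [hempty]
    simp

theorem PhR_neg {f : ℝ → ℝ} (hf : LI f) (l : List (ℝ × ℝ)) (M : ℕ) (δ η : ℝ) (u : ℝ) :
    PhR l M δ η (fun u => -f u) u = -PhR l M δ η f u := by
  have h1 := PhR_sub hf hf l M δ η u
  have h2 := PhR_sub (hf.sub hf) hf l M δ η u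
  have e1 : (fun u => f u - f u - f u) = fun u => -f u := by funext v; ring
  rw [e1, h1] at h2
  linarith

theorem avgR_shift (δ : ℝ) (f : ℝ → ℝ) (t : ℝ) : avgR δ (fun u => f (u + t)) = fun u => avgR δ f (u + t) := by
  funext u
  unfold avgR
  congr 1
  apply intervalIntegral.integral_congr
  intro v _
  simp only
  congr 1
  ring

theorem avgsR_shift (δ : ℝ) (M : ℕ) (f : ℝ → ℝ) (t : ℝ) :
    (avgR δ)^[M] (fun u => f (u + t)) = fun u => (avgR δ)^[M] f (u + t) := by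
  induction M with
  | zero => rfl
  | succ M ih =>
    rw [Function.iterate_succ_apply', ih, avgR_shift]
    simp only [Function.iterate_succ_apply']

theorem popsR_shift (l : List (ℝ × ℝ)) (f : ℝ → ℝ) (t : ℝ) :
    popsR l (fun u => f (u + t)) = fun u => popsR l f (u + t) := by
  induction l with
  | nil => rfl
  | cons q l ih =>
    rw [popsR_cons, ih]
    funext u
    rw [popsR_cons]
    unfold popR
    simp only
    have : u + q.1 + t = u + t + q.1 := by ring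
    rw [this]

theorem PhR_shift (l : List (ℝ × ℝ)) (M : ℕ) (δ η : ℝ) (f : ℝ → ℝ) (t u : ℝ) :
    PhR l M δ η (fun u => f (u + t)) u = PhR l M δ η f (u + t) := by
  unfold PhR
  rw [avgR_shift, avgsR_shift, popsR_shift, avgR_shift, avgR_shift]

theorem Dr_norm (hreal : ∀ n, (a n).im = 0) (u c : ℝ) : ‖DD a u - (c : ℂ)‖ = |Dr a u - c| := by
  rw [Dr_eq hreal u, ← Complex.ofReal_sub, Complex.norm_real, Real.norm_eq_abs]

/-- both signs at once: `f` is `D` or `-D` -/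
theorem onesided_aux {β θ L : ℝ} (hβ : 0 < β) (hθβ : θ = β / 2) (hL : 0 ≤ L) {f : ℝ → ℝ} (hf : LI f)
    (hasym : ∀ ε : ℝ, 0 < ε → ∀ᶠ U : ℝ in atTop, Real.exp ((β - ε) * U) ≤ ∫ u in U..(U + 1 / 2), |f u|)
    (hpar : ∀ ε : ℝ, 0 < ε → ∀ᶠ U : ℝ in atTop, ∃ (l : List (ℝ × ℝ)) (M : ℕ) (δ : ℝ),
      Ok l ∧ shift l ≤ L ∧ mass l ≤ Real.exp (ε * U) ∧ 0 < δ ∧ (M + 2) * δ ≤ 1 / 4 ∧
      -Real.exp ((θ + ε) * U) ≤ PhR l M δ (3 / 4) f U) {ε : ℝ} (hε : 0 < ε) :
    ∀ᶠ U : ℝ in atTop, Real.exp ((β - ε) * U) ≤ ∫ u in U..(U + (L + 1)), max (f u) 0 := by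
  set ε' : ℝ := min ε β / 8 with hε'
  have hε'0 : 0 < ε' := by rw [hε']; have := lt_min hε hβ; linarith
  have h81 : 8 * ε' ≤ ε := by rw [hε']; linarith [min_le_left ε β]
  have h82 : 8 * ε' ≤ β := by rw [hε']; linarith [min_le_right ε β]
  have e1 : ∀ᶠ U : ℝ in atTop, Real.exp ((β - ε') * (U + 1 / 4)) ≤
      ∫ u in (U + 1 / 4)..(U + 1 / 4 + 1 / 2), |f u| :=
    (tendsto_atTop_add_const_right atTop (1 / 4 : ℝ) tendsto_id).eventually (hasym ε' hε'0)
  filter_upwards [e1, hpar ε' hε'0, eventually_ge_atTop (2 / ε'), eventually_ge_atTop (1 : ℝ)] with U f1 f2 f3 f4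
  obtain ⟨l, M, δ, hl, hsh, hm, hδ, hMδ, hPh⟩ := f2
  have hU0 : 0 < U := by linarith
  have hU2 : 2 ≤ ε' * U := by
    rw [div_le_iff₀ hε'0] at f3
    linarith
  have hlen : len l M δ (3 / 4) ≤ L + 1 := by unfold len; linarith
  have hlen0 : 0 ≤ len l M δ (3 / 4) := by
    unfold len
    have := shift_nonneg hl
    positivity
  have ht := PhR_transfer hl M hδ (η := 3 / 4) (by linarith) hf hPh
  set E : ℝ := Real.exp ((θ + ε') * U) with hE
  set I : ℝ := ∫ u in U..(U + (L + 1)), max (f u) 0 with hI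
  have hpos : ∀ u, 0 ≤ max (f u) 0 := fun u => le_max_right _ _
  have hneg : ∀ u, 0 ≤ max (-f u) 0 := fun u => le_max_right _ _
  have g1 : ∫ v in U..(U + len l M δ (3 / 4)), max (f v) 0 ≤ I := by
    apply intervalIntegral.integral_mono_interval le_rfl (by linarith) (by linarith) _ (hf.pos _ _)
    exact Eventually.of_forall fun u => hpos u
  have g2 : ∫ v in (U + 1 / 4)..(U + 3 / 4), max (-f v) 0 ≤
      ∫ v in (U + (M + 2) * δ)..(U + 3 / 4), max (-f v) 0 := by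
    apply intervalIntegral.integral_mono_interval (by linarith) (by linarith) le_rfl _ (hf.negpart _ _)
    exact Eventually.of_forall fun u => hneg u
  have g3 : ∫ v in (U + 1 / 4)..(U + 3 / 4), max (f v) 0 ≤ I := by
    apply intervalIntegral.integral_mono_interval (by linarith) (by linarith) (by linarith) _ (hf.pos _ _)
    exact Eventually.of_forall fun u => hpos u
  have g4 : ∫ u in (U + 1 / 4)..(U + 1 / 4 + 1 / 2), |f u| =
      (∫ v in (U + 1 / 4)..(U + 3 / 4), max (f v) 0) + ∫ v in (U + 1 / 4)..(U + 3 / 4), max (-f v) 0 := by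
    have e : U + 1 / 4 + 1 / 2 = U + 3 / 4 := by ring
    rw [e, ← intervalIntegral.integral_add (hf.pos _ _) (hf.negpart _ _)]
    apply intervalIntegral.integral_congr
    intro v _
    simp only
    rcases le_total (f v) 0 with h | h
    · rw [max_eq_right h, max_eq_left (by linarith), abs_of_nonpos h, zero_add]
    · rw [max_eq_left h, max_eq_right (by linarith), abs_of_nonneg h, add_zero]
  have hm1 := mass_ge hl
  have hI0 : 0 ≤ I := intervalIntegral.integral_nonneg (by linarith) fun u _ => hpos u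
  have hE0 : 0 < E := Real.exp_pos _
  have g5 : ∫ v in (U + 1 / 4)..(U + 3 / 4), max (-f v) 0 ≤ mass l * I + E := by
    have h1 : mass l * (1 / (3 / 4) * ∫ v in U..(U + len l M δ (3 / 4)), max (f v) 0) ≤
        mass l * (1 / (3 / 4) * I) := by gcongr
    have h2 : (1 : ℝ) / (3 / 4) * ∫ v in (U + (M + 2) * δ)..(U + 3 / 4), max (-f v) 0 ≤
        mass l * (1 / (3 / 4) * I) + E := ht.trans (by linarith)
    have h3 : mass l * (1 / (3 / 4) * I) = 4 / 3 * (mass l * I) := by ring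
    rw [h3] at h2
    linarith
  have g6 : Real.exp ((β - ε') * (U + 1 / 4)) ≤ 2 * Real.exp (ε' * U) * I + E := by
    refine f1.trans ?_
    rw [g4]
    have h1 : mass l * I ≤ Real.exp (ε' * U) * I := by gcongr
    have h2 : I ≤ Real.exp (ε' * U) * I := le_mul_of_one_le_left hI0 (Real.one_le_exp (by linarith))
    linarith
  have g7 : 2 * E ≤ Real.exp ((β - ε') * (U + 1 / 4)) := by
    calc 2 * E ≤ Real.exp 1 * E := by
          have : (2 : ℝ) ≤ Real.exp 1 := by linarith [Real.exp_one_gt_d9]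
          gcongr
      _ = Real.exp (1 + (θ + ε') * U) := by rw [hE, ← Real.exp_add]
      _ ≤ _ := Real.exp_le_exp.2 (by rw [hθβ]; nlinarith)
  have g8 : Real.exp ((β - ε') * (U + 1 / 4)) ≤ 4 * Real.exp (ε' * U) * I := by linarith
  have g9 : 4 * Real.exp (ε' * U) * Real.exp ((β - ε) * U) ≤ Real.exp ((β - ε') * (U + 1 / 4)) := by
    have h4 : (4 : ℝ) ≤ Real.exp 2 := by
      have h2 : Real.exp 2 = Real.exp 1 * Real.exp 1 := by rw [← Real.exp_add]; norm_num
      rw [h2]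
      nlinarith [Real.exp_one_gt_d9]
    calc 4 * Real.exp (ε' * U) * Real.exp ((β - ε) * U) ≤ Real.exp 2 * Real.exp (ε' * U) * Real.exp ((β - ε) * U) := by
          gcongr
      _ = Real.exp (2 + ε' * U + (β - ε) * U) := by rw [Real.exp_add, Real.exp_add]
      _ ≤ _ := Real.exp_le_exp.2 (by nlinarith)
  have g10 : 4 * Real.exp (ε' * U) * Real.exp ((β - ε) * U) ≤ 4 * Real.exp (ε' * U) * I := g9.trans g8
  exact le_of_mul_le_mul_left g10 (by positivity)

/-- **The local one-sided theorem, positive part.** -/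
theorem LG.onesided (h : LG G g a) (hdens : Dens G) (hreal : ∀ n, (a n).im = 0) {ρ₀ : ℂ} (hz : G ρ₀ = 0)
    (hβ : 0 < ρ₀.re) (hβ2 : ρ₀.re ≤ 1 / 2) :
    ∃ R : ℝ, 0 < R ∧ ∀ ε : ℝ, 0 < ε → ∀ᶠ U : ℝ in atTop,
      Real.exp ((ρ₀.re - ε) * U) ≤ ∫ u in U..(U + R), max (Dr a u) 0 := by
  obtain ⟨L, hL, hpar⟩ := LG.param h hdens hreal (θ := ρ₀.re / 2) (by linarith) (by linarith)
  refine ⟨L + 1, by linarith, fun ε hε => ?_⟩
  refine onesided_aux hβ rfl hL (Dr_LI a) (fun ε hε => ?_) (fun ε hε => ?_) hε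
  · have h1 := h.asym hdens hz hβ hβ2 (κ := 0) le_rfl (by linarith) hε
    filter_upwards [h1] with U h2
    have h3 := h2 ((0 : ℝ) : ℂ)
    simp only [neg_zero, Real.rpow_zero] at h3
    refine h3.trans (le_of_eq ?_)
    apply intervalIntegral.integral_congr
    intro u _
    simp only
    rw [Dr_norm hreal, sub_zero]
  · filter_upwards [hpar ε hε] with U hU
    obtain ⟨l, M, δ, R0, R1, k1, k2, k3, k4, k5, k6, k7, k8, k9, k10⟩ := hU
    refine ⟨l, M, δ, k1, k2, k3, k4, k5, ?_⟩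
    have := (abs_le.1 k8).1
    linarith

/-- **The local one-sided theorem, negative part.** -/
theorem LG.onesided_neg (h : LG G g a) (hdens : Dens G) (hreal : ∀ n, (a n).im = 0)
    (hG : ∀ x : ℝ, 0 < x → G x ≠ 0) {ρ₀ : ℂ} (hz : G ρ₀ = 0)
    (hβ : 0 < ρ₀.re) (hβ2 : ρ₀.re ≤ 1 / 2) :
    ∃ R : ℝ, 0 < R ∧ ∀ ε : ℝ, 0 < ε → ∀ᶠ U : ℝ in atTop,
      Real.exp ((ρ₀.re - ε) * U) ≤ ∫ u in U..(U + R), max (-Dr a u) 0 := by
  obtain ⟨L, hL, hpar⟩ := LG.param h hdens hreal (θ := ρ₀.re / 2) (by linarith) (by linarith)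
  refine ⟨L + 1, by linarith, fun ε hε => ?_⟩
  refine onesided_aux hβ rfl hL (Dr_LI a).neg (fun ε hε => ?_) (fun ε hε => ?_) hε
  · have h1 := h.asym hdens hz hβ hβ2 (κ := 0) le_rfl (by linarith) hε
    filter_upwards [h1] with U h2
    have h3 := h2 ((0 : ℝ) : ℂ)
    simp only [neg_zero, Real.rpow_zero] at h3
    refine h3.trans (le_of_eq ?_)
    apply intervalIntegral.integral_congr
    intro u _
    simp only
    rw [Dr_norm hreal, sub_zero, abs_neg]
  · filter_upwards [hpar ε hε] with U hU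
    obtain ⟨l, M, δ, R0, R1, k1, k2, k3, k4, k5, k6, k7, k8, k9, k10⟩ := hU
    refine ⟨l, M, δ, k1, k2, k3, k4, k5, ?_⟩
    have := (abs_le.1 k8).2
    rw [PhR_neg (Dr_LI a)]
    have := (k10 hG).1
    linarith

/-- the increments: `f` is `D` or `-D` -/
theorem incr_aux {β θ L : ℝ} (hβ : 0 < β) (hθβ : θ = β / 2) (hL : 0 ≤ L) {f : ℝ → ℝ} (hf : LI f)
    (hasym : ∀ ε : ℝ, 0 < ε → ∀ᶠ U : ℝ in atTop, ∀ c : ℝ,
      Real.exp ((β - ε) * U) ≤ ∫ u in U..(U + 1 / 2), |f u - c|)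
    (hpar : ∀ ε : ℝ, 0 < ε → ∀ᶠ U : ℝ in atTop, ∃ (l : List (ℝ × ℝ)) (M : ℕ) (δ : ℝ),
      Ok l ∧ shift l ≤ L ∧ mass l ≤ Real.exp (ε * U) ∧ 0 < δ ∧ (M + 2) * δ ≤ 1 / 4 ∧
      -(2 * Real.exp ((θ + ε) * U)) ≤ PhR l M δ (3 / 4) f (U + 1 / 2) - PhR l M δ (3 / 4) f U)
    {ε : ℝ} (hε : 0 < ε) :
    ∀ᶠ U : ℝ in atTop, ∃ u v : ℝ, U ≤ u ∧ u ≤ v ∧ v ≤ U + (L + 2) ∧ Real.exp ((β - ε) * U) ≤ f v - f u := by
  set ε' : ℝ := min ε β / 8 with hε'
  have hε'0 : 0 < ε' := by rw [hε']; have := lt_min hε hβ; linarith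
  have h81 : 8 * ε' ≤ ε := by rw [hε']; linarith [min_le_left ε β]
  have h82 : 8 * ε' ≤ β := by rw [hε']; linarith [min_le_right ε β]
  obtain ⟨U0, hU0⟩ := eventually_atTop.1 (hasym ε' hε'0)
  have e3 : ∀ᶠ U : ℝ in atTop, 3 * (L + 2) ≤ Real.exp (ε' * U) := by
    have : Tendsto (fun U : ℝ => Real.exp (ε' * U)) atTop atTop :=
      Real.tendsto_exp_atTop.comp (tendsto_id.const_mul_atTop hε'0)
    exact this.eventually_ge_atTop _
  filter_upwards [hpar ε' hε'0, eventually_ge_atTop (4 / ε'), eventually_ge_atTop (1 : ℝ),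
    eventually_ge_atTop U0, e3] with U f2 f3 f4 f5 f6
  obtain ⟨l, M, δ, hl, hsh, hm, hδ, hMδ, hPh⟩ := f2
  have hUp : 0 < U := by linarith
  have hU2 : 4 ≤ ε' * U := by
    rw [div_le_iff₀ hε'0] at f3
    linarith
  by_contra hcon
  push Not at hcon
  set K : ℝ := Real.exp ((β - ε) * U) with hK
  have hK0 : 0 < K := Real.exp_pos _
  have hlen : len l M δ (3 / 4) ≤ L + 1 := by unfold len; linarith
  have hlen0 : 0 ≤ len l M δ (3 / 4) := by
    unfold len
    have := shift_nonneg hl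
    positivity
  set F : ℝ → ℝ := fun u => f (u + 1 / 2) - f u with hF
  have hFLI : LI F := (hf.shift (1 / 2)).sub hf
  have hPF : PhR l M δ (3 / 4) F U = PhR l M δ (3 / 4) f (U + 1 / 2) - PhR l M δ (3 / 4) f U := by
    rw [hF, PhR_sub (hf.shift (1 / 2)) hf, PhR_shift]
  rw [← hPF] at hPh
  have ht := PhR_transfer hl M hδ (η := 3 / 4) (by linarith) hFLI hPh
  set E : ℝ := Real.exp ((θ + ε') * U) with hE
  have hE0 : 0 < E := Real.exp_pos _
  have hm1 := mass_ge hl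
  have g1 : ∫ v in U..(U + len l M δ (3 / 4)), max (F v) 0 ≤ (L + 1) * K := by
    calc ∫ v in U..(U + len l M δ (3 / 4)), max (F v) 0 ≤ ∫ v in U..(U + len l M δ (3 / 4)), K := by
          apply intervalIntegral.integral_mono_on (by linarith) (hFLI.pos _ _) intervalIntegrable_const
          intro v hv
          apply max_le _ hK0.le
          exact (hcon v (v + 1 / 2) hv.1 (by linarith) (by linarith [hv.2])).le
      _ = len l M δ (3 / 4) * K := by rw [intervalIntegral.integral_const, add_sub_cancel_left, smul_eq_mul]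
      _ ≤ (L + 1) * K := by gcongr
  have g2 : ∫ v in (U + 1 / 4)..(U + 3 / 4), max (-F v) 0 ≤
      ∫ v in (U + (M + 2) * δ)..(U + 3 / 4), max (-F v) 0 := by
    apply intervalIntegral.integral_mono_interval (by linarith) (by linarith) le_rfl _ (hFLI.negpart _ _)
    exact Eventually.of_forall fun u => le_max_right _ _
  set J : ℝ := mass l * ((L + 1) * K) + 2 * E with hJ
  have hJ0 : 0 < J := by positivity
  have g3 : ∫ v in (U + 1 / 4)..(U + 3 / 4), max (-F v) 0 ≤ J := by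
    have h1 : mass l * (1 / (3 / 4) * ∫ v in U..(U + len l M δ (3 / 4)), max (F v) 0) ≤
        mass l * (1 / (3 / 4) * ((L + 1) * K)) := by gcongr
    have h2 : (1 : ℝ) / (3 / 4) * ∫ v in (U + (M + 2) * δ)..(U + 3 / 4), max (-F v) 0 ≤
        mass l * (1 / (3 / 4) * ((L + 1) * K)) + 2 * E := ht.trans (by linarith)
    have h3 : mass l * (1 / (3 / 4) * ((L + 1) * K)) = 4 / 3 * (mass l * ((L + 1) * K)) := by ring
    rw [h3] at h2
    linarith
  have g4 : ∃ u₀ ∈ Icc (U + 1 / 4) (U + 3 / 4), max (-F u₀) 0 ≤ 3 * J := by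
    by_contra hc
    push Not at hc
    have h1 : ∫ v in (U + 1 / 4)..(U + 3 / 4), 3 * J ≤ ∫ v in (U + 1 / 4)..(U + 3 / 4), max (-F v) 0 := by
      apply intervalIntegral.integral_mono_on (by linarith) intervalIntegrable_const (hFLI.negpart _ _)
      intro v hv
      exact (hc v hv).le
    rw [intervalIntegral.integral_const, smul_eq_mul] at h1
    have h2 : (U + 3 / 4 - (U + 1 / 4)) * (3 * J) = 3 / 2 * J := by ring
    rw [h2] at h1
    linarith
  obtain ⟨u₀, hu₀, g5⟩ := g4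
  have g6 : -F u₀ ≤ 3 * J := (le_max_left _ _).trans g5
  have g7 : ∀ v ∈ Icc u₀ (u₀ + 1 / 2), |f v - f u₀| ≤ K + 3 * J := by
    intro v hv
    have h1 := hcon u₀ v (by linarith [hu₀.1]) hv.1 (by linarith [hu₀.2, hv.2])
    have h2 := hcon v (u₀ + 1 / 2) (by linarith [hu₀.1, hv.1]) hv.2 (by linarith [hu₀.2])
    have h3 : F u₀ = f (u₀ + 1 / 2) - f u₀ := rfl
    rw [abs_le]
    constructor <;> linarith
  have g8 := hU0 u₀ (by linarith [hu₀.1]) (f u₀)
  have g9 : ∫ u in u₀..(u₀ + 1 / 2), |f u - f u₀| ≤ K + 3 * J := by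
    have hint : IntervalIntegrable (fun u => |f u - f u₀|) volume u₀ (u₀ + 1 / 2) :=
      ((hf _ _).sub intervalIntegrable_const).abs
    have h1 : ∫ u in u₀..(u₀ + 1 / 2), |f u - f u₀| ≤ ∫ u in u₀..(u₀ + 1 / 2), (K + 3 * J) :=
      intervalIntegral.integral_mono_on (by linarith) hint intervalIntegrable_const g7
    rw [intervalIntegral.integral_const, add_sub_cancel_left, smul_eq_mul] at h1
    have : 0 < K + 3 * J := by positivity
    linarith
  have g10 : Real.exp ((β - ε') * U) ≤ K + 3 * J := by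
    refine le_trans (Real.exp_le_exp.2 ?_) (g8.trans g9)
    have : 0 ≤ β - ε' := by linarith
    have := hu₀.1
    nlinarith
  have g11 : K + 3 * J ≤ 3 * (L + 2) * (Real.exp (ε' * U) * K) + 6 * E := by
    have h1 : mass l * ((L + 1) * K) ≤ Real.exp (ε' * U) * ((L + 1) * K) := by gcongr
    have h2 : K ≤ Real.exp (ε' * U) * K := le_mul_of_one_le_left hK0.le (Real.one_le_exp (by linarith))
    have e : 3 * (L + 2) * (Real.exp (ε' * U) * K) = 3 * (Real.exp (ε' * U) * ((L + 1) * K)) +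
      3 * (Real.exp (ε' * U) * K) := by ring
    rw [hJ, e]
    have : 0 < Real.exp (ε' * U) * K := by positivity
    linarith
  have h4 : (4 : ℝ) ≤ Real.exp 2 := by
    have h2 : Real.exp 2 = Real.exp 1 * Real.exp 1 := by rw [← Real.exp_add]; norm_num
    rw [h2]
    nlinarith [Real.exp_one_gt_d9]
  have g12 : 3 * (L + 2) * (Real.exp (ε' * U) * K) ≤ Real.exp (ε' * U) * (Real.exp (ε' * U) * K) := by gcongr
  have g13 : 4 * (Real.exp (ε' * U) * (Real.exp (ε' * U) * K)) ≤ Real.exp ((β - ε') * U) := by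
    calc 4 * (Real.exp (ε' * U) * (Real.exp (ε' * U) * K))
        ≤ Real.exp 2 * (Real.exp (ε' * U) * (Real.exp (ε' * U) * K)) := by gcongr
      _ = Real.exp (2 + (ε' * U + (ε' * U + (β - ε) * U))) := by
          rw [hK, ← Real.exp_add, ← Real.exp_add, ← Real.exp_add]
      _ ≤ _ := Real.exp_le_exp.2 (by nlinarith)
  have g14 : 4 * (4 * E) ≤ Real.exp ((β - ε') * U) := by
    calc 4 * (4 * E) ≤ Real.exp 2 * (Real.exp 2 * E) := by gcongr
      _ = Real.exp (2 + (2 + (θ + ε') * U)) := by rw [hE, ← Real.exp_add, ← Real.exp_add]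
      _ ≤ _ := Real.exp_le_exp.2 (by rw [hθβ]; nlinarith)
  have := Real.exp_pos ((β - ε') * U)
  linarith

/-- **Every window contains a large increase.** -/
theorem LG.incr (h : LG G g a) (hdens : Dens G) (hreal : ∀ n, (a n).im = 0) {ρ₀ : ℂ} (hz : G ρ₀ = 0)
    (hβ : 0 < ρ₀.re) (hβ2 : ρ₀.re ≤ 1 / 2) :
    ∃ R : ℝ, 0 < R ∧ ∀ ε : ℝ, 0 < ε → ∀ᶠ U : ℝ in atTop,
      ∃ u v : ℝ, U ≤ u ∧ u ≤ v ∧ v ≤ U + R ∧ Real.exp ((ρ₀.re - ε) * U) ≤ Dr a v - Dr a u := by
  obtain ⟨L, hL, hpar⟩ := LG.param h hdens hreal (θ := ρ₀.re / 2) (by linarith) (by linarith)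
  refine ⟨L + 2, by linarith, fun ε hε => ?_⟩
  refine incr_aux hβ rfl hL (Dr_LI a) (fun ε hε => ?_) (fun ε hε => ?_) hε
  · have h1 := h.asym hdens hz hβ hβ2 (κ := 0) le_rfl (by linarith) hε
    filter_upwards [h1] with U h2 c
    have h3 := h2 (c : ℂ)
    simp only [neg_zero, Real.rpow_zero] at h3
    refine h3.trans (le_of_eq ?_)
    apply intervalIntegral.integral_congr
    intro u _
    simp only
    rw [Dr_norm hreal]
  · filter_upwards [hpar ε hε] with U hU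
    obtain ⟨l, M, δ, R0, R1, k1, k2, k3, k4, k5, k6, k7, k8, k9, k10⟩ := hU
    refine ⟨l, M, δ, k1, k2, k3, k4, k5, ?_⟩
    have := (abs_le.1 k8).2
    have := (abs_le.1 k9).1
    linarith

/-- **Every window contains a large decrease, if there are no real zeros.** -/
theorem LG.decr (h : LG G g a) (hdens : Dens G) (hreal : ∀ n, (a n).im = 0)
    (hG : ∀ x : ℝ, 0 < x → G x ≠ 0) {ρ₀ : ℂ} (hz : G ρ₀ = 0)
    (hβ : 0 < ρ₀.re) (hβ2 : ρ₀.re ≤ 1 / 2) :
    ∃ R : ℝ, 0 < R ∧ ∀ ε : ℝ, 0 < ε → ∀ᶠ U : ℝ in atTop,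
      ∃ u v : ℝ, U ≤ u ∧ u ≤ v ∧ v ≤ U + R ∧ Real.exp ((ρ₀.re - ε) * U) ≤ Dr a u - Dr a v := by
  obtain ⟨L, hL, hpar⟩ := LG.param h hdens hreal (θ := ρ₀.re / 2) (by linarith) (by linarith)
  refine ⟨L + 2, by linarith, fun ε hε => ?_⟩
  have key := incr_aux (f := fun u => -Dr a u) hβ rfl hL (Dr_LI a).neg (fun ε hε => ?_) (fun ε hε => ?_) hε
  · filter_upwards [key] with U hU
    obtain ⟨u, v, h1, h2, h3, h4⟩ := hU
    exact ⟨u, v, h1, h2, h3, by linarith⟩
  · have h1 := h.asym hdens hz hβ hβ2 (κ := 0) le_rfl (by linarith) hε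
    filter_upwards [h1] with U h2 c
    have h3 := h2 ((-c : ℝ) : ℂ)
    simp only [neg_zero, Real.rpow_zero] at h3
    refine h3.trans (le_of_eq ?_)
    apply intervalIntegral.integral_congr
    intro u _
    simp only
    rw [Dr_norm hreal, ← abs_neg]
    congr 1
    ring
  · filter_upwards [hpar ε hε] with U hU
    obtain ⟨l, M, δ, R0, R1, k1, k2, k3, k4, k5, k6, k7, k8, k9, k10⟩ := hU
    refine ⟨l, M, δ, k1, k2, k3, k4, k5, ?_⟩
    rw [PhR_neg (Dr_LI a), PhR_neg (Dr_LI a)]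
    have h0 := k10 hG
    have := (abs_le.1 k8).1
    have := (abs_le.1 k9).2
    linarith [h0.1, h0.2]

end

end Pool.Agent.N739.LL
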