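import Pool.Agent.N739.LW.Key

/-!
# The integral over `Re s = 3/2` against a general entire multiplier
-/

set_option autoImplicit false

open MeasureTheory Filter Topology Set

namespace Pool.Agent.N739.LL

open Pool.Agent.N739.LW
open H370 (mult)

noncomputable section

variable {G g : ℂ → ℂ} {a : ℕ → ℂ}

/-- the value of the integral over `Re s = 3/2` -/
def Iv (G g : ℂ → ℂ) (E : ℂ → ℂ) : ℂ :=
  ((2 * Real.pi)⁻¹ : ℂ) * ∫ y : ℝ, Fz G g (((3 / 2 : ℝ) : ℂ) + y * Complex.I) *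
      E (((3 / 2 : ℝ) : ℂ) + y * Complex.I)

theorem contour (h : LG G g a) {θ : ℝ} (hθ : 0 < θ) (hθ1 : θ < 1) :
    ∃ C : ℝ, 1 ≤ C ∧ ∀ T1 : ℝ, C ≤ T1 → ∃ T ∈ Icc T1 (T1 + 1),
      ∑ s ∈ (h.NZ_fin hθ T).toFinset, (mult G s : ℝ) ≤ C * T ^ 6 ∧
      ∀ (E : ℂ → ℂ) (W U : ℝ), Differentiable ℂ E → 0 ≤ U → 0 ≤ W →
      (∀ s : ℂ, θ / 2 ≤ s.re → s.re ≤ 3 / 2 → |s.im| ≤ T → ‖E s‖ ≤ W * Real.exp (s.re * U)) →
      (∀ s : ℂ, θ / 2 ≤ s.re → s.re ≤ 3 / 2 → T ≤ |s.im| → ‖E s‖ ≤ W * (T / |s.im|) ^ 2) →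
      ‖Iv G g E - ∑ s ∈ (h.NZ_fin hθ T).toFinset, (mult G s : ℂ) * E s‖ ≤
        C * T ^ 6 * (W * Real.exp (θ * U)) := by
  classical
  obtain ⟨C0, hC0, hrect⟩ := h.rect_main (η := θ / 2) (by linarith) (by linarith)
  obtain ⟨C3, hC3, hld⟩ := h.Fz_bound
  set C : ℝ := 4 + 4 * C0 + 2 * C3 with hC
  refine ⟨C, by linarith, fun T1 hT1 => ?_⟩
  obtain ⟨T, hT, σ, hσ, hfin, hcount, hmain⟩ := hrect T1 (by linarith)
  have hT3 : 4 ≤ T := by linarith [hT.1]
  have hT0 : 0 < T := by linarith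
  have hσθ : σ ≤ θ := by linarith [hσ.2]
  have hσ0 : 0 < σ := by linarith [hσ.1]
  have hNZfin := h.NZ_fin hθ T
  have hsub : hNZfin.toFinset ⊆ hfin.toFinset := by
    intro s hs
    rw [Set.Finite.mem_toFinset] at hs ⊢
    obtain ⟨h1, h2, h3⟩ := hs
    have h4 := h.re_lt h1
    refine ⟨⟨⟨by linarith, by linarith⟩, ?_⟩, h1⟩
    exact abs_lt.1 h3
  have hcount2 : ∑ s ∈ hfin.toFinset, (mult G s : ℝ) ≤ C0 * T ^ 6 := by
    have e : ∑ᶠ s ∈ RZ G σ T, (mult G s : ℂ) = ((∑ s ∈ hfin.toFinset, (mult G s : ℝ) : ℝ) : ℂ) := by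
      rw [finsum_mem_eq_finite_toFinset_sum _ hfin]
      push_cast
      rfl
    rw [e, Complex.norm_real] at hcount
    exact (le_abs_self _).trans hcount
  have hT60 : 0 ≤ T ^ 6 := by positivity
  refine ⟨T, hT, ?_, fun E W U hE hU hW hinner houter => ?_⟩
  · calc ∑ s ∈ hNZfin.toFinset, (mult G s : ℝ) ≤ ∑ s ∈ hfin.toFinset, (mult G s : ℝ) :=
          Finset.sum_le_sum_of_subset_of_nonneg hsub fun _ _ _ => Nat.cast_nonneg _
      _ ≤ C0 * T ^ 6 := hcount2
      _ ≤ C * T ^ 6 := by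
          apply mul_le_mul_of_nonneg_right _ hT60
          linarith
  have hexp1 : 1 ≤ Real.exp (θ * U) := Real.one_le_exp (by positivity)
  have hx0 : 0 < Real.exp (θ * U) := Real.exp_pos _
  have hW1 : W * 1 ≤ W * Real.exp (θ * U) := mul_le_mul_of_nonneg_left hexp1 hW
  -- the rectangle
  have hr := hmain E (W * Real.exp (θ * U)) hE
    (fun x hx => by
      refine (houter ⟨x, T⟩ hx.1 hx.2 (le_abs_self T)).trans ?_
      simp only
      rw [abs_of_pos hT0, div_self hT0.ne', one_pow]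
      exact hW1)
    (fun x hx => by
      refine (houter ⟨x, -T⟩ hx.1 hx.2 (by simp only [abs_neg]; exact le_abs_self T)).trans ?_
      simp only
      rw [abs_neg, abs_of_pos hT0, div_self hT0.ne', one_pow]
      exact hW1)
    (fun y hy => by
      refine (hinner ⟨σ, y⟩ hσ.1 (by simp only; linarith) (abs_le.2 hy)).trans ?_
      have h1 : Real.exp (σ * U) ≤ Real.exp (θ * U) := Real.exp_le_exp.2 (mul_le_mul_of_nonneg_right hσθ hU)
      exact mul_le_mul_of_nonneg_left h1 hW)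
  -- the sum over zeros
  have hsumfin : ∑ᶠ s ∈ RZ G σ T, (mult G s : ℂ) * E s =
      ∑ s ∈ hfin.toFinset, (mult G s : ℂ) * E s :=
    finsum_mem_eq_finite_toFinset_sum _ hfin
  have hsplit : ∑ s ∈ hfin.toFinset, (mult G s : ℂ) * E s =
      ∑ s ∈ hfin.toFinset \ hNZfin.toFinset, (mult G s : ℂ) * E s +
      ∑ s ∈ hNZfin.toFinset, (mult G s : ℂ) * E s := (Finset.sum_sdiff hsub).symm
  have hrest : ‖∑ s ∈ hfin.toFinset \ hNZfin.toFinset, (mult G s : ℂ) * E s‖ ≤
      C0 * T ^ 6 * (W * Real.exp (θ * U)) := by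
    refine (norm_sum_le _ _).trans ?_
    calc ∑ s ∈ hfin.toFinset \ hNZfin.toFinset, ‖(mult G s : ℂ) * E s‖
        ≤ ∑ s ∈ hfin.toFinset \ hNZfin.toFinset, (mult G s : ℝ) * (W * Real.exp (θ * U)) := by
          apply Finset.sum_le_sum
          intro s hs
          rw [Finset.mem_sdiff, Set.Finite.mem_toFinset, Set.Finite.mem_toFinset] at hs
          obtain ⟨k1, k2, k3, k4⟩ := RZ_mem h hs.1
          have hc : s.re ≤ θ := by
            by_contra hcon
            exact hs.2 ⟨k1, not_le.1 hcon, k4⟩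
          rw [norm_mul, Complex.norm_natCast]
          apply mul_le_mul_of_nonneg_left _ (Nat.cast_nonneg _)
          refine (hinner s (hσ.1.trans k2.le) (by linarith) k4.le).trans ?_
          have h1 : Real.exp (s.re * U) ≤ Real.exp (θ * U) :=
            Real.exp_le_exp.2 (mul_le_mul_of_nonneg_right hc hU)
          exact mul_le_mul_of_nonneg_left h1 hW
      _ ≤ ∑ s ∈ hfin.toFinset, (mult G s : ℝ) * (W * Real.exp (θ * U)) := by
          apply Finset.sum_le_sum_of_subset_of_nonneg Finset.sdiff_subset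
          intro s _ _
          positivity
      _ = (∑ s ∈ hfin.toFinset, (mult G s : ℝ)) * (W * Real.exp (θ * U)) := by rw [Finset.sum_mul]
      _ ≤ _ := by gcongr
  -- the integral over the whole line
  set H : ℝ → ℂ := fun y => Fz G g (((3 / 2 : ℝ) : ℂ) + y * Complex.I) *
    E (((3 / 2 : ℝ) : ℂ) + y * Complex.I) with hH
  have hre : ∀ y : ℝ, (((3 / 2 : ℝ) : ℂ) + y * Complex.I).re = 3 / 2 := by intro y; simp
  have him : ∀ y : ℝ, (((3 / 2 : ℝ) : ℂ) + y * Complex.I).im = y := by intro y; simp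
  have hGb : ∀ y : ℝ, T ≤ |y| → ‖H y‖ ≤ (C3 * W) * (T / |y|) ^ 2 := by
    intro y hy
    rw [hH]
    simp only
    rw [norm_mul]
    have h1 := hld (((3 / 2 : ℝ) : ℂ) + y * Complex.I) (hre y).ge
    have h2 := houter (((3 / 2 : ℝ) : ℂ) + y * Complex.I) (by rw [hre]; linarith) (hre y).le
      (by rw [him]; exact hy)
    rw [him] at h2
    calc _ ≤ C3 * (W * (T / |y|) ^ 2) := by gcongr
      _ = _ := by ring
  have hGint : Integrable H := by
    refine Pool.Agent.H295R2.vertical_integrable (H := fun s => Fz G g s * E s) (a := 3 / 2)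
      (B := (C3 * W) * (4 * T ^ 2) + (C3 * (W * Real.exp (3 / 2 * U))) * (1 + T) ^ 2) ?_ ?_
    · intro s hs
      exact (h.Fz_diff hs.ge).continuousAt.mul hE.continuous.continuousAt
    · intro s hs
      rw [norm_mul]
      have h1 := hld s hs.ge
      have ha := abs_nonneg s.im
      have hrp : (1 + |s.im|) ^ (-2 : ℝ) ≤ (1 + |s.im|) ^ (-(3 / 2) : ℝ) :=
        Real.rpow_le_rpow_of_exponent_le (by linarith) (by norm_num)
      have hrp2 : (1 + |s.im|) ^ (-2 : ℝ) = ((1 + |s.im|) ^ 2)⁻¹ := by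
        rw [Real.rpow_neg (by positivity)]
        norm_num
      have hrp0 : 0 ≤ (1 + |s.im|) ^ (-(3 / 2) : ℝ) := by positivity
      rw [hrp2] at hrp
      rcases le_or_gt T |s.im| with hy | hy
      · have h2 := houter s (by rw [hs]; linarith) hs.le hy
        have hy0 : 0 < |s.im| := by linarith
        have h3 : (T / |s.im|) ^ 2 ≤ 4 * T ^ 2 * ((1 + |s.im|) ^ 2)⁻¹ := by
          rw [div_pow, div_le_iff₀ (by positivity), mul_assoc, ← div_eq_inv_mul]
          have h5 : 1 ≤ 4 * (|s.im| ^ 2 / (1 + |s.im|) ^ 2) := tail_aux (by linarith)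
          have h6 := mul_le_mul_of_nonneg_left h5 (sq_nonneg T)
          linarith
        calc ‖Fz G g s‖ * ‖E s‖ ≤ C3 * (W * (4 * T ^ 2 * ((1 + |s.im|) ^ 2)⁻¹)) := by
              apply mul_le_mul h1 (h2.trans (by gcongr)) (norm_nonneg _) hC3.le
          _ ≤ C3 * (W * (4 * T ^ 2 * (1 + |s.im|) ^ (-(3 / 2) : ℝ))) := by gcongr
          _ = (C3 * W) * (4 * T ^ 2) * (1 + |s.im|) ^ (-(3 / 2) : ℝ) := by ring
          _ ≤ _ := by
              apply mul_le_mul_of_nonneg_right _ hrp0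
              have : 0 ≤ (C3 * (W * Real.exp (3 / 2 * U))) * (1 + T) ^ 2 := by positivity
              linarith
      · have h2 := hinner s (by rw [hs]; linarith) hs.le hy.le
        rw [hs] at h2
        have h3 : 1 ≤ (1 + T) ^ 2 * ((1 + |s.im|) ^ 2)⁻¹ := by
          rw [← div_eq_mul_inv, le_div_iff₀ (by positivity), one_mul]
          exact pow_le_pow_left₀ (by linarith) (by linarith) 2
        calc ‖Fz G g s‖ * ‖E s‖ ≤ C3 * (W * Real.exp (3 / 2 * U)) := by
              apply mul_le_mul h1 h2 (norm_nonneg _) hC3.le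
          _ = C3 * (W * Real.exp (3 / 2 * U)) * 1 := by ring
          _ ≤ C3 * (W * Real.exp (3 / 2 * U)) * ((1 + T) ^ 2 * ((1 + |s.im|) ^ 2)⁻¹) := by gcongr
          _ ≤ C3 * (W * Real.exp (3 / 2 * U)) * ((1 + T) ^ 2 * (1 + |s.im|) ^ (-(3 / 2) : ℝ)) := by
              gcongr
          _ = (C3 * (W * Real.exp (3 / 2 * U))) * (1 + T) ^ 2 * (1 + |s.im|) ^ (-(3 / 2) : ℝ) := by ring
          _ ≤ _ := by
              apply mul_le_mul_of_nonneg_right _ hrp0
              have : 0 ≤ (C3 * W) * (4 * T ^ 2) := by positivity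
              linarith
  have htail := tail_bound hT0 hGint hGb
  have hGseg : ∫ y in (-T)..T, H y = ∫ y in (-T)..T, Fz G g ⟨3 / 2, y⟩ * E ⟨3 / 2, y⟩ := by
    apply intervalIntegral.integral_congr
    intro y _
    simp only [hH]
    have : (((3 / 2 : ℝ) : ℂ) + y * Complex.I) = ⟨3 / 2, y⟩ := by
      rw [← Complex.mk_eq_add_mul_I]
    rw [this]
  rw [← hGseg, hsumfin, hsplit] at hr
  set S1 := ∑ s ∈ hfin.toFinset \ hNZfin.toFinset, (mult G s : ℂ) * E s with hS1
  set S2 := ∑ s ∈ hNZfin.toFinset, (mult G s : ℂ) * E s with hS2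
  set x := Real.exp (θ * U) with hx
  have hpi3 := Real.pi_gt_three
  have hI : Iv G g E = ((2 * Real.pi)⁻¹ : ℂ) * ∫ y : ℝ, H y := rfl
  have f1 : ‖(2 * Real.pi : ℂ) * (Iv G g E - S2)‖ ≤ C3 * W * (2 * T) + C0 * T ^ 6 * (W * x) +
      2 * Real.pi * (C0 * T ^ 6 * (W * x)) := by
    have e : (2 * Real.pi : ℂ) * (Iv G g E - S2) = ((∫ y : ℝ, H y) - ∫ y in (-T)..T, H y) +
        ((∫ y in (-T)..T, H y) - 2 * Real.pi * (S1 + S2)) + (2 * Real.pi : ℂ) * S1 := by
      rw [hI, mul_sub, ← mul_assoc, mul_inv_cancel₀ (by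
        have := Real.pi_pos.ne'
        exact_mod_cast mul_ne_zero two_ne_zero this), one_mul]
      ring
    rw [e]
    refine (norm_add_le _ _).trans (add_le_add ((norm_add_le _ _).trans (add_le_add htail hr)) ?_)
    rw [norm_mul, norm_mul, Complex.norm_real, Complex.norm_ofNat, Real.norm_of_nonneg Real.pi_pos.le]
    gcongr
  have f2 : ‖(2 * Real.pi : ℂ) * (Iv G g E - S2)‖ = 2 * Real.pi * ‖Iv G g E - S2‖ := by
    rw [norm_mul, norm_mul, Complex.norm_real, Complex.norm_ofNat, Real.norm_of_nonneg Real.pi_pos.le]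
  rw [f2] at f1
  have hTT : T ≤ T ^ 6 := le_self_pow₀ (by linarith) (by norm_num)
  have hWx : 0 ≤ W * x := by positivity
  have g1 : C3 * W * (2 * T) ≤ 2 * C3 * (T ^ 6 * (W * x)) := by
    calc C3 * W * (2 * T) = 2 * C3 * (T * (W * 1)) := by ring
      _ ≤ 2 * C3 * (T ^ 6 * (W * x)) := by gcongr
  have hy : 0 ≤ T ^ 6 * (W * x) := by positivity
  have f3 : 2 * Real.pi * ‖Iv G g E - S2‖ ≤ 2 * Real.pi * ((C0 + C0 + 2 * C3) * (T ^ 6 * (W * x))) := by
    refine f1.trans ?_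
    have e1 : C0 * T ^ 6 * (W * x) = C0 * (T ^ 6 * (W * x)) := by ring
    rw [e1]
    set z := T ^ 6 * (W * x) with hz
    have hC0z : 0 ≤ C0 * z := mul_nonneg (by linarith) hy
    have hC3z : 0 ≤ C3 * z := mul_nonneg hC3.le hy
    have hp : 1 ≤ 2 * Real.pi := by linarith
    have g2 : C0 * z ≤ 2 * Real.pi * (C0 * z) := le_mul_of_one_le_left hC0z hp
    have g3 : 2 * C3 * z ≤ 2 * Real.pi * (2 * C3 * z) := le_mul_of_one_le_left (by linarith) hp
    have e2 : 2 * Real.pi * ((C0 + C0 + 2 * C3) * z) = 2 * Real.pi * (C0 * z) + 2 * Real.pi * (C0 * z) +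
      2 * Real.pi * (2 * C3 * z) := by ring
    rw [e2]
    linarith
  have f4 := le_of_mul_le_mul_left f3 (by positivity)
  refine f4.trans ?_
  have e3 : C * T ^ 6 * (W * x) = C * (T ^ 6 * (W * x)) := by ring
  rw [e3]
  apply mul_le_mul_of_nonneg_right _ hy
  rw [hC]
  linarith

end

end Pool.Agent.N739.LL
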