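import Pool.Agent.N739.LL.Sum

/-!
# The positive operator applied to the summatory function
-/

set_option autoImplicit false

open MeasureTheory Filter Topology Set

namespace Pool.Agent.N739.LL

open Pool.Agent.N739.LW
open Pool.Agent.H295R2 (avg step)
open H370 (mult)

noncomputable section

variable {G g : ℂ → ℂ} {a : ℕ → ℂ}

/-- the real summatory function -/
def Dr (a : ℕ → ℂ) (u : ℝ) : ℝ := (DD a u).re

theorem Dr_eq (hreal : ∀ n, (a n).im = 0) (u : ℝ) : DD a u = (Dr a u : ℂ) := by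
  apply Complex.ext
  · rfl
  · unfold DD
    rw [Complex.im_sum, Complex.ofReal_im]
    exact Finset.sum_eq_zero fun n _ => hreal n

theorem Dr_LI (a : ℕ → ℂ) : LI (Dr a) := fun x y =>
  ⟨(DD_int a x y).1.re, (DD_int a x y).2.re⟩

theorem Dr_Ph (h : LG G g a) (hreal : ∀ n, (a n).im = 0) {l : List (ℝ × ℝ)} (hl : Ok l) (M : ℕ) {δ η U V : ℝ}
    (hδ : 0 < δ) (hδ1 : δ ≤ 1) (hη : 0 < η) (hV : (M + 2) * δ + η < V) :
    ((PhR l M δ η (Dr a) U : ℝ) : ℂ) = Iv G g (EP l U V M δ η) := by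
  set N : ℕ := ⌈Real.exp (U + len l M δ η)⌉₊ with hN
  have hN1 : 1 ≤ N := Nat.one_le_iff_ne_zero.2 (by
    rw [hN]
    exact (Nat.ceil_pos.2 (Real.exp_pos _)).ne')
  have hNlog : U + len l M δ η ≤ Real.log N := by
    have h1 : Real.exp (U + len l M δ η) ≤ N := Nat.le_ceil _
    have := Real.log_le_log (Real.exp_pos _) h1
    rwa [Real.log_exp] at this
  rw [← perron_P h hl M hδ hδ1 hη hV hN1 hNlog, ← Ph_sum hl M hδ hη]
  have e1 : Ph l M δ η (fun u => ∑ n ∈ Finset.Icc 1 N, a n * step (u - Real.log n)) U =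
      Ph l M δ η (fun u => (Dr a u : ℂ)) U := by
    apply Ph_congr hl M hδ hη
    intro u hu
    have h1 := PN_eq (a := a) hN1 (u := u) (hu.2.trans hNlog)
    unfold PN at h1
    simp only
    rw [h1]
    exact Dr_eq hreal u
  rw [e1, Ph_ofReal]

/-- the contribution of the real zeros -/
def RR (h : LG G g a) {θ : ℝ} (hθ : 0 < θ) (T : ℝ) (l : List (ℝ × ℝ)) (U V : ℝ) (M : ℕ) (δ η : ℝ) : ℝ :=
  ∑ s ∈ (h.NZ_fin hθ T).toFinset.filter (fun ρ => ¬ ρ.im ≠ 0), (mult G s : ℝ) * (EP l U V M δ η s).re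

theorem RR_mono (h : LG G g a) {θ : ℝ} (hθ : 0 < θ) (T : ℝ) {l : List (ℝ × ℝ)} (hl : Ok l) {U V : ℝ}
    (hU : 0 ≤ U) (hV : 0 ≤ V) (M : ℕ) {δ η : ℝ} (hδ : 0 < δ) (hη : 0 < η) {k : ℝ} (hk : 0 ≤ k) :
    0 ≤ RR h hθ T l U V M δ η ∧ RR h hθ T l U V M δ η ≤ RR h hθ T l (U + k) V M δ η := by
  have key : ∀ s ∈ (h.NZ_fin hθ T).toFinset.filter (fun ρ => ¬ ρ.im ≠ 0),
      0 ≤ (EP l U V M δ η s).re ∧ (EP l U V M δ η s).re ≤ (EP l (U + k) V M δ η s).re := by
    intro s hs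
    rw [Finset.mem_filter, Set.Finite.mem_toFinset, not_not] at hs
    have hs0 : 0 < s.re := hθ.trans hs.1.2.1
    obtain ⟨r, r', h1, h2, h3, h4⟩ := EP_real hl hU hV M hδ hη hk hs0
    have e : ((s.re : ℝ) : ℂ) = s := by
      apply Complex.ext
      · simp
      · simp [hs.2]
    rw [e] at h3
    have h4' : EP l (U + k) V M δ η s = (r' : ℂ) := by
      rw [e] at h4
      rw [← h4]
    rw [h3, h4']
    simp only [Complex.ofReal_re]
    exact ⟨h1, h2⟩
  constructor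
  · apply Finset.sum_nonneg
    intro s hs
    exact mul_nonneg (Nat.cast_nonneg _) (key s hs).1
  · apply Finset.sum_le_sum
    intro s hs
    exact mul_le_mul_of_nonneg_left (key s hs).2 (Nat.cast_nonneg _)

theorem LG.posKey (h : LG G g a) (hreal : ∀ n, (a n).im = 0) {θ : ℝ} (hθ : 0 < θ) (hθ1 : θ < 1) :
    ∃ C : ℝ, 1 ≤ C ∧ ∀ T1 : ℝ, C ≤ T1 → ∃ T ∈ Icc T1 (T1 + 1),
      ∀ (U δ : ℝ) (M : ℕ), 0 ≤ U → 0 < δ → (M + 2) * δ ≤ 1 / 4 → 30 ≤ T1 * δ →
        Real.exp (3 / 2 * U) ≤ 10 ^ M →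
        |PhR (zl (nr h hθ T)) M δ (3 / 4) (Dr a) U - RR h hθ T (zl (nr h hθ T)) U 2 M δ (3 / 4)| ≤
          C * T ^ 6 * (WW θ (zl (nr h hθ T)) * Real.exp (θ * U)) := by
  obtain ⟨C0, hC0, hcont⟩ := contour h hθ hθ1
  refine ⟨2 * C0, by linarith, fun T1 hT1 => ?_⟩
  obtain ⟨T, hT, hcount, hmain⟩ := hcont T1 (by linarith)
  refine ⟨T, hT, fun U δ M hU hδ hMδ hT1δ hexp => ?_⟩
  have hT0 : 0 < T := by linarith [hT.1]
  have hδ1 : δ ≤ 1 / 8 := by
    have : 0 ≤ (M : ℝ) * δ := by positivity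
    linarith
  have hTδ : 30 ≤ T * δ := hT1δ.trans (mul_le_mul_of_nonneg_right hT.1 hδ.le)
  set l := zl (nr h hθ T) with hl0
  have hl : Ok l := zl_ok _
  have hlen : (M + 2) * δ + 3 / 4 ≤ 1 := by linarith
  set E := EP l U 2 M δ (3 / 4) with hE
  have hW := WW_pos hθ hl
  have h1 := hmain E (WW θ l) U (EP_diff l U 2 M δ (3 / 4)) hU hW.le
    (fun s hs1 hs2 _ => by
      have := EP_inner hl hU (V := 2) (by norm_num) hθ hδ (by norm_num) hlen hs1 hs2
      exact this)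
    (fun s hs1 hs2 hs3 => by
      have := EP_outer hl hU (V := 2) (by norm_num) hθ hδ (by linarith) (η := 3 / 4) (by norm_num) (by norm_num)
        hT0 hTδ hexp hs1 hs2 hs3
      exact this)
  have h2 : ((PhR l M δ (3 / 4) (Dr a) U : ℝ) : ℂ) = Iv G g E := by
    apply Dr_Ph h hreal hl M hδ (by linarith) (by norm_num)
    linarith
  set Z := (h.NZ_fin hθ T).toFinset with hZ
  have h3 : ∑ s ∈ Z, (mult G s : ℂ) * E s = ∑ s ∈ Z.filter (fun ρ => ρ.im ≠ 0), (mult G s : ℂ) * E s +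
      ∑ s ∈ Z.filter (fun ρ => ¬ ρ.im ≠ 0), (mult G s : ℂ) * E s :=
    (Finset.sum_filter_add_sum_filter_not _ _ _).symm
  have h4 : ‖∑ s ∈ Z.filter (fun ρ => ρ.im ≠ 0), (mult G s : ℂ) * E s‖ ≤ C0 * T ^ 6 * WW θ l := by
    refine (norm_sum_le _ _).trans ?_
    calc ∑ s ∈ Z.filter (fun ρ => ρ.im ≠ 0), ‖(mult G s : ℂ) * E s‖
        ≤ ∑ s ∈ Z.filter (fun ρ => ρ.im ≠ 0), (mult G s : ℝ) * WW θ l := by
          apply Finset.sum_le_sum
          intro s hs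
          have hs' : s ∈ nr h hθ T := hs
          have hs'' := mem_nr.1 hs'
          rw [norm_mul, Complex.norm_natCast]
          apply mul_le_mul_of_nonneg_left _ (Nat.cast_nonneg _)
          have := EP_killed (U := U) hl (V := 2) (by norm_num) hθ hδ (by norm_num) hlen
            (s := s) (by linarith [hs''.1.2.1]) (by linarith [h.re_lt hs''.1.1]) (zl_kill hs' hs''.2)
          exact this
      _ ≤ ∑ s ∈ Z, (mult G s : ℝ) * WW θ l := by
          apply Finset.sum_le_sum_of_subset_of_nonneg (Finset.filter_subset _ _)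
          intro s _ _
          positivity
      _ = (∑ s ∈ Z, (mult G s : ℝ)) * WW θ l := by rw [Finset.sum_mul]
      _ ≤ _ := by gcongr
  have h5 : (∑ s ∈ Z.filter (fun ρ => ¬ ρ.im ≠ 0), (mult G s : ℂ) * E s).re = RR h hθ T l U 2 M δ (3 / 4) := by
    unfold RR
    rw [Complex.re_sum]
    apply Finset.sum_congr rfl
    intro s _
    rw [← Complex.ofReal_natCast, Complex.re_ofReal_mul]
  have h6 : PhR l M δ (3 / 4) (Dr a) U - RR h hθ T l U 2 M δ (3 / 4) =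
      ((Iv G g E - ∑ s ∈ Z, (mult G s : ℂ) * E s) +
        ∑ s ∈ Z.filter (fun ρ => ρ.im ≠ 0), (mult G s : ℂ) * E s).re := by
    rw [← h2, h3]
    rw [← h5]
    simp only [Complex.add_re, Complex.sub_re, Complex.ofReal_re]
    ring
  rw [h6]
  refine (Complex.abs_re_le_norm _).trans ((norm_add_le _ _).trans ?_)
  have hexp1 : 1 ≤ Real.exp (θ * U) := Real.one_le_exp (by positivity)
  have h7 : C0 * T ^ 6 * WW θ l ≤ C0 * T ^ 6 * (WW θ l * Real.exp (θ * U)) := by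
    have h8 : 0 ≤ C0 * T ^ 6 := by positivity
    apply mul_le_mul_of_nonneg_left _ h8
    exact le_mul_of_one_le_right hW.le hexp1
  have e : 2 * C0 * T ^ 6 * (WW θ l * Real.exp (θ * U)) = C0 * T ^ 6 * (WW θ l * Real.exp (θ * U)) +
    C0 * T ^ 6 * (WW θ l * Real.exp (θ * U)) := by ring
  rw [e]
  exact add_le_add h1 (h4.trans h7)

end

end Pool.Agent.N739.LL
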