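import Pool.Agent.N739.LL.Pos

/-!
# The positive operators on real functions
-/

set_option autoImplicit false

open MeasureTheory Filter Topology Set

namespace Pool.Agent.N739.LL

open Pool.Agent.H295R2 (avg)

noncomputable section

/-- locally integrable -/
def LI (f : ℝ → ℝ) : Prop := ∀ x y : ℝ, IntervalIntegrable f volume x y

/-- the average over `[u, u + δ]` -/
def avgR (δ : ℝ) (f : ℝ → ℝ) (u : ℝ) : ℝ := (1 / δ) * ∫ v in (0 : ℝ)..δ, f (u + v)

/-- the positive operator -/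
def popR (q : ℝ × ℝ) (f : ℝ → ℝ) (u : ℝ) : ℝ := f u + q.2 * f (u + q.1)

/-- the composition -/
def popsR (l : List (ℝ × ℝ)) (f : ℝ → ℝ) : ℝ → ℝ := l.foldr popR f

/-- the whole operator -/
def PhR (l : List (ℝ × ℝ)) (M : ℕ) (δ η : ℝ) (f : ℝ → ℝ) : ℝ → ℝ :=
  avgR δ (avgR δ (popsR l ((avgR δ)^[M] (avgR η f))))

theorem popsR_cons (q : ℝ × ℝ) (l : List (ℝ × ℝ)) (f : ℝ → ℝ) :
    popsR (q :: l) f = popR q (popsR l f) := rfl

/-! ### the complex operators on real functions -/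

theorem avg_ofReal (δ : ℝ) (f : ℝ → ℝ) : avg δ (fun u => (f u : ℂ)) = fun u => (avgR δ f u : ℂ) := by
  funext u
  unfold avg avgR
  push_cast
  rw [← intervalIntegral.integral_ofReal]

theorem avgs_ofReal (δ : ℝ) (M : ℕ) (f : ℝ → ℝ) :
    (avg δ)^[M] (fun u => (f u : ℂ)) = fun u => ((avgR δ)^[M] f u : ℂ) := by
  induction M with
  | zero => rfl
  | succ M ih =>
    rw [Function.iterate_succ_apply', ih, avg_ofReal]
    simp only [Function.iterate_succ_apply']

theorem pop_ofReal (q : ℝ × ℝ) (f : ℝ → ℝ) : pop q (fun u => (f u : ℂ)) = fun u => (popR q f u : ℂ) := by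
  funext u
  unfold pop popR
  push_cast
  rfl

theorem pops_ofReal (l : List (ℝ × ℝ)) (f : ℝ → ℝ) :
    pops l (fun u => (f u : ℂ)) = fun u => (popsR l f u : ℂ) := by
  induction l with
  | nil => rfl
  | cons q l ih => rw [pops_cons, ih, pop_ofReal, popsR_cons]

theorem Ph_ofReal (l : List (ℝ × ℝ)) (M : ℕ) (δ η : ℝ) (f : ℝ → ℝ) :
    Ph l M δ η (fun u => (f u : ℂ)) = fun u => (PhR l M δ η f u : ℂ) := by
  unfold Ph PhR
  rw [avg_ofReal, avgs_ofReal, pops_ofReal, avg_ofReal, avg_ofReal]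

/-! ### local integrability -/

theorem LI.shift {f : ℝ → ℝ} (h : LI f) (a : ℝ) : LI fun u => f (u + a) := fun x y => by
  have := (h (x + a) (y + a)).comp_add_right a
  simpa using this

theorem avgR_eq (δ : ℝ) (f : ℝ → ℝ) (u : ℝ) : avgR δ f u = (1 / δ) * ∫ v in u..(u + δ), f v := by
  unfold avgR
  rw [intervalIntegral.integral_comp_add_left (fun v => f v) u, add_zero]

theorem LI.avgR {f : ℝ → ℝ} (h : LI f) (δ : ℝ) : LI (avgR δ f) := by
  have e : LL.avgR δ f = fun u => (1 / δ) * ((∫ v in (0 : ℝ)..(u + δ), f v) - ∫ v in (0 : ℝ)..u, f v) := by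
    funext u
    rw [avgR_eq, intervalIntegral.integral_interval_sub_left (h _ _) (h _ _)]
  have hc : Continuous fun u => ∫ v in (0 : ℝ)..u, f v := intervalIntegral.continuous_primitive h 0
  intro x y
  apply Continuous.intervalIntegrable
  rw [e]
  exact continuous_const.mul ((hc.comp (continuous_id.add continuous_const)).sub hc)

theorem LI.popR {f : ℝ → ℝ} (h : LI f) (q : ℝ × ℝ) : LI (popR q f) := fun x y =>
  (h x y).add ((h.shift q.1 x y).const_mul _)

theorem LI.popsR {f : ℝ → ℝ} (h : LI f) (l : List (ℝ × ℝ)) : LI (popsR l f) := by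
  induction l with
  | nil => exact h
  | cons q l ih => exact ih.popR q

theorem LI.avgsR {f : ℝ → ℝ} (h : LI f) (δ : ℝ) (M : ℕ) : LI ((LL.avgR δ)^[M] f) := by
  induction M with
  | zero => exact h
  | succ M ih =>
    rw [Function.iterate_succ_apply']
    exact ih.avgR δ

theorem LI.sub {f g : ℝ → ℝ} (hf : LI f) (hg : LI g) : LI fun u => f u - g u := fun x y =>
  (hf x y).sub (hg x y)

theorem LI.pos {f : ℝ → ℝ} (hf : LI f) : LI fun u => max (f u) 0 := fun x y =>
  ⟨(hf x y).1.pos_part, (hf x y).2.pos_part⟩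

theorem LI.neg {f : ℝ → ℝ} (hf : LI f) : LI fun u => - f u := fun x y => (hf x y).neg

theorem LI.negpart {f : ℝ → ℝ} (hf : LI f) : LI fun u => max (-f u) 0 := hf.neg.pos

/-! ### linearity -/

theorem avgR_sub {f g : ℝ → ℝ} (hf : LI f) (hg : LI g) (δ : ℝ) :
    avgR δ (fun u => f u - g u) = fun u => avgR δ f u - avgR δ g u := by
  funext u
  rw [avgR_eq, avgR_eq, avgR_eq, intervalIntegral.integral_sub (hf _ _) (hg _ _)]
  ring

theorem avgsR_sub {f g : ℝ → ℝ} (hf : LI f) (hg : LI g) (δ : ℝ) (M : ℕ) :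
    (avgR δ)^[M] (fun u => f u - g u) = fun u => (avgR δ)^[M] f u - (avgR δ)^[M] g u := by
  induction M with
  | zero => rfl
  | succ M ih =>
    rw [Function.iterate_succ_apply', ih, avgR_sub (hf.avgsR δ M) (hg.avgsR δ M)]
    simp only [Function.iterate_succ_apply']

theorem popsR_sub (f g : ℝ → ℝ) (l : List (ℝ × ℝ)) :
    popsR l (fun u => f u - g u) = fun u => popsR l f u - popsR l g u := by
  induction l with
  | nil => rfl
  | cons q l ih =>
    rw [popsR_cons, ih]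
    funext u
    rw [popsR_cons, popsR_cons]
    unfold popR
    ring

theorem PhR_sub {f g : ℝ → ℝ} (hf : LI f) (hg : LI g) (l : List (ℝ × ℝ)) (M : ℕ) (δ η : ℝ) (u : ℝ) :
    PhR l M δ η (fun u => f u - g u) u = PhR l M δ η f u - PhR l M δ η g u := by
  unfold PhR
  rw [avgR_sub hf hg, avgsR_sub (hf.avgR η) (hg.avgR η), popsR_sub,
    avgR_sub (((hf.avgR η).avgsR δ M).popsR l) (((hg.avgR η).avgsR δ M).popsR l),
    avgR_sub ((((hf.avgR η).avgsR δ M).popsR l).avgR δ) ((((hg.avgR η).avgsR δ M).popsR l).avgR δ)]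

/-! ### bounds -/

theorem avgR_le {f : ℝ → ℝ} (hf : LI f) {δ A B K : ℝ} (hδ : 0 < δ) (h : ∀ u ∈ Icc A (B + δ), f u ≤ K) :
    ∀ u ∈ Icc A B, avgR δ f u ≤ K := by
  intro u hu
  rw [avgR_eq]
  have h1 : ∫ v in u..(u + δ), f v ≤ ∫ v in u..(u + δ), K := by
    apply intervalIntegral.integral_mono_on (by linarith) (hf _ _) intervalIntegrable_const
    intro v hv
    exact h v ⟨by linarith [hu.1, hv.1], by linarith [hu.2, hv.2]⟩
  rw [intervalIntegral.integral_const, add_sub_cancel_left, smul_eq_mul] at h1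
  calc 1 / δ * ∫ v in u..(u + δ), f v ≤ 1 / δ * (δ * K) := by gcongr
    _ = K := by field_simp

theorem le_avgR {f : ℝ → ℝ} (hf : LI f) {δ A B K : ℝ} (hδ : 0 < δ) (h : ∀ u ∈ Icc A (B + δ), K ≤ f u) :
    ∀ u ∈ Icc A B, K ≤ avgR δ f u := by
  intro u hu
  rw [avgR_eq]
  have h1 : ∫ v in u..(u + δ), K ≤ ∫ v in u..(u + δ), f v := by
    apply intervalIntegral.integral_mono_on (by linarith) intervalIntegrable_const (hf _ _)
    intro v hv
    exact h v ⟨by linarith [hu.1, hv.1], by linarith [hu.2, hv.2]⟩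
  rw [intervalIntegral.integral_const, add_sub_cancel_left, smul_eq_mul] at h1
  calc K = 1 / δ * (δ * K) := by field_simp
    _ ≤ _ := by gcongr

theorem avgsR_le {δ : ℝ} (hδ : 0 < δ) (M : ℕ) {f : ℝ → ℝ} (hf : LI f) {A K : ℝ} : ∀ B : ℝ,
    (∀ u ∈ Icc A (B + M * δ), f u ≤ K) → ∀ u ∈ Icc A B, (avgR δ)^[M] f u ≤ K := by
  induction M with
  | zero => intro B h; simpa using h
  | succ M ih =>
    intro B h
    rw [Function.iterate_succ_apply']
    apply avgR_le (hf.avgsR δ M) hδ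
    apply ih
    have e : B + δ + M * δ = B + (M + 1 : ℕ) * δ := by push_cast; ring
    rw [e]
    exact h

theorem le_avgsR {δ : ℝ} (hδ : 0 < δ) (M : ℕ) {f : ℝ → ℝ} (hf : LI f) {A K : ℝ} : ∀ B : ℝ,
    (∀ u ∈ Icc A (B + M * δ), K ≤ f u) → ∀ u ∈ Icc A B, K ≤ (avgR δ)^[M] f u := by
  induction M with
  | zero => intro B h; simpa using h
  | succ M ih =>
    intro B h
    rw [Function.iterate_succ_apply']
    apply le_avgR (hf.avgsR δ M) hδ
    apply ih
    have e : B + δ + M * δ = B + (M + 1 : ℕ) * δ := by push_cast; ring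
    rw [e]
    exact h

theorem popsR_le {l : List (ℝ × ℝ)} (hl : Ok l) {f : ℝ → ℝ} {A K : ℝ} (hK : 0 ≤ K) : ∀ B : ℝ,
    (∀ u ∈ Icc A (B + shift l), f u ≤ K) → ∀ u ∈ Icc A B, popsR l f u ≤ mass l * K := by
  induction l with
  | nil => intro B h; simpa [popsR, shift, mass] using h
  | cons q l ih =>
    intro B h u hu
    have h0 := hl.head.1
    have h2 := hl.head.2
    rw [shift_cons] at h
    have h1 := ih hl.tail (B + q.1) (by
      have e : B + q.1 + shift l = B + (q.1 + shift l) := by ring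
      rw [e]
      exact h)
    rw [popsR_cons, mass_cons]
    unfold popR
    have a1 := h1 u ⟨hu.1, by linarith [hu.2]⟩
    have a2 := h1 (u + q.1) ⟨by linarith [hu.1], by linarith [hu.2]⟩
    have a3 := mul_le_mul_of_nonneg_left a2 h2
    have e : (1 + q.2) * mass l * K = mass l * K + q.2 * (mass l * K) := by ring
    rw [e]
    exact add_le_add a1 a3

theorem le_popsR {l : List (ℝ × ℝ)} (hl : Ok l) {f : ℝ → ℝ} (hf : ∀ u, 0 ≤ f u) (u : ℝ) :
    f u ≤ popsR l f u := by
  induction l generalizing u with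
  | nil => exact le_rfl
  | cons q l ih =>
    rw [popsR_cons]
    unfold popR
    have a1 := ih hl.tail u
    have a2 := (hf (u + q.1)).trans (ih hl.tail (u + q.1))
    have a3 := mul_nonneg hl.head.2 a2
    linarith

theorem avgR_nonneg {δ : ℝ} (hδ : 0 < δ) {f : ℝ → ℝ} (hf : ∀ u, 0 ≤ f u) (u : ℝ) : 0 ≤ avgR δ f u := by
  unfold avgR
  have := intervalIntegral.integral_nonneg (μ := volume) hδ.le fun v (_ : v ∈ Icc 0 δ) => hf (u + v)
  positivity

theorem avgsR_nonneg {δ : ℝ} (hδ : 0 < δ) (M : ℕ) {f : ℝ → ℝ} (hf : ∀ u, 0 ≤ f u) (u : ℝ) :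
    0 ≤ (avgR δ)^[M] f u := by
  induction M generalizing u with
  | zero => exact hf u
  | succ M ih =>
    rw [Function.iterate_succ_apply']
    exact avgR_nonneg hδ ih u

theorem PhR_le {l : List (ℝ × ℝ)} (hl : Ok l) (M : ℕ) {δ η : ℝ} (hδ : 0 < δ) (hη : 0 < η) {f : ℝ → ℝ}
    (hf : LI f) (h0 : ∀ u, 0 ≤ f u) (U : ℝ) :
    PhR l M δ η f U ≤ mass l * ((1 / η) * ∫ v in U..(U + len l M δ η), f v) := by
  have hs := shift_nonneg hl
  have hM : 0 ≤ (M : ℝ) * δ := by positivity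
  have b1 : ∀ u ∈ Icc U (U + δ + δ + shift l + M * δ), avgR η f u ≤
      (1 / η) * ∫ v in U..(U + len l M δ η), f v := by
    intro u hu
    rw [avgR_eq]
    apply mul_le_mul_of_nonneg_left _ (by positivity)
    apply intervalIntegral.integral_mono_interval hu.1 (by linarith) _ _ (hf _ _)
    · have : U + len l M δ η = U + δ + δ + shift l + M * δ + η := by unfold len; ring
      linarith [hu.2]
    · exact Eventually.of_forall fun u => h0 u
  have hK : 0 ≤ (1 / η) * ∫ v in U..(U + len l M δ η), f v := by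
    have := intervalIntegral.integral_nonneg (μ := volume) (a := U) (b := U + len l M δ η) (by
      unfold len; nlinarith) fun v _ => h0 v
    positivity
  have b2 := avgsR_le hδ M (hf.avgR η) (U + δ + δ + shift l) b1
  have b3 := popsR_le hl hK (U + δ + δ) b2
  have b4 := avgR_le (((hf.avgR η).avgsR δ M).popsR l) hδ b3
  exact avgR_le ((((hf.avgR η).avgsR δ M).popsR l).avgR δ) hδ (A := U) (B := U) b4 U ⟨le_rfl, le_rfl⟩

theorem le_PhR {l : List (ℝ × ℝ)} (hl : Ok l) (M : ℕ) {δ η : ℝ} (hδ : 0 < δ) (hη : (M + 2) * δ ≤ η)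
    {f : ℝ → ℝ} (hf : LI f) (h0 : ∀ u, 0 ≤ f u) (U : ℝ) :
    (1 / η) * ∫ v in (U + (M + 2) * δ)..(U + η), f v ≤ PhR l M δ η f U := by
  have hM : 0 ≤ (M : ℝ) * δ := by positivity
  have hη0 : 0 < η := by nlinarith
  have b1 : ∀ u ∈ Icc U (U + δ + δ + M * δ), (1 / η) * (∫ v in (U + (M + 2) * δ)..(U + η), f v) ≤
      avgR η f u := by
    intro u hu
    rw [avgR_eq]
    apply mul_le_mul_of_nonneg_left _ (by positivity)
    apply intervalIntegral.integral_mono_interval _ (by linarith) _ _ (hf _ _)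
    · linarith [hu.2]
    · linarith [hu.1]
    · exact Eventually.of_forall fun u => h0 u
  have b2 := le_avgsR hδ M (hf.avgR η) (U + δ + δ) b1
  have hn : ∀ u, 0 ≤ (avgR δ)^[M] (avgR η f) u := avgsR_nonneg hδ M fun u => avgR_nonneg hη0 h0 u
  have b3 : ∀ u ∈ Icc U (U + δ + δ), (1 / η) * (∫ v in (U + (M + 2) * δ)..(U + η), f v) ≤
      popsR l ((avgR δ)^[M] (avgR η f)) u := fun u hu => (b2 u hu).trans (le_popsR hl hn u)
  have b4 := le_avgR (((hf.avgR η).avgsR δ M).popsR l) hδ b3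
  exact le_avgR ((((hf.avgR η).avgsR δ M).popsR l).avgR δ) hδ (A := U) (B := U) b4 U ⟨le_rfl, le_rfl⟩

/-- the transfer from one sign to the other -/
theorem PhR_transfer {l : List (ℝ × ℝ)} (hl : Ok l) (M : ℕ) {δ η : ℝ} (hδ : 0 < δ) (hη : (M + 2) * δ ≤ η)
    {f : ℝ → ℝ} (hf : LI f) {U E : ℝ} (hE : -E ≤ PhR l M δ η f U) :
    (1 / η) * ∫ v in (U + (M + 2) * δ)..(U + η), max (-f v) 0 ≤
      mass l * ((1 / η) * ∫ v in U..(U + len l M δ η), max (f v) 0) + E := by
  have hη0 : 0 < η := by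
    have : 0 ≤ (M : ℝ) * δ := by positivity
    nlinarith
  have e : f = fun u => max (f u) 0 - max (-f u) 0 := by
    funext u
    rcases le_total (f u) 0 with h | h
    · rw [max_eq_right h, max_eq_left (by linarith)]; ring
    · rw [max_eq_left h, max_eq_right (by linarith)]; ring
  rw [e, PhR_sub hf.pos hf.negpart] at hE
  have h1 := PhR_le hl M hδ hη0 hf.pos (fun u => le_max_right _ _) U
  have h2 := le_PhR hl M hδ hη hf.negpart (fun u => le_max_right _ _) U
  linarith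

end

end Pool.Agent.N739.LL
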