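import Pool.Agent.N739.LL.Mult
import Pool.Agent.N739.LL.Real
import Pool.Agent.N739.LW.Asym

/-!
# The list of the zeros off the real line
-/

set_option autoImplicit false

open MeasureTheory Filter Topology Set

namespace Pool.Agent.N739.LL

open Pool.Agent.N739.LW
open H370 (mult)

noncomputable section

/-- the shift and the weight which annihilate `e^{ρu}` -/
def sw (ρ : ℂ) : ℝ × ℝ := (Real.pi / |ρ.im|, Real.exp (-(ρ.re * (Real.pi / |ρ.im|))))

/-- the list of all -/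
def zl (Z : Finset ℂ) : List (ℝ × ℝ) := Z.toList.map sw

theorem zl_ok (Z : Finset ℂ) : Ok (zl Z) := by
  intro q hq
  unfold zl at hq
  rw [List.mem_map] at hq
  obtain ⟨ρ, -, rfl⟩ := hq
  exact ⟨by unfold sw; positivity, (Real.exp_pos _).le⟩

theorem zl_shift (Z : Finset ℂ) : shift (zl Z) = ∑ ρ ∈ Z, Real.pi / |ρ.im| := by
  unfold shift zl
  rw [List.map_map]
  exact Finset.sum_map_toList Z _

theorem zl_mass (Z : Finset ℂ) (hZ : ∀ ρ ∈ Z, 0 ≤ ρ.re) : mass (zl Z) ≤ 2 ^ Z.card := by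
  unfold mass zl
  rw [List.map_map]
  have e : (Z.toList.map ((fun q : ℝ × ℝ => 1 + q.2) ∘ sw)).prod = ∏ ρ ∈ Z, (1 + (sw ρ).2) :=
    Finset.prod_map_toList Z _
  rw [e, ← Finset.prod_const]
  apply Finset.prod_le_prod
  · intro ρ _
    unfold sw
    positivity
  · intro ρ hρ
    have h1 : (sw ρ).2 ≤ 1 := by
      unfold sw
      apply Real.exp_le_one_iff.2
      have := hZ ρ hρ
      have : 0 ≤ ρ.re * (Real.pi / |ρ.im|) := by positivity
      linarith
    linarith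

theorem sw_kill {ρ : ℂ} (h : ρ.im ≠ 0) : 1 + ((sw ρ).2 : ℂ) * Complex.exp (ρ * ((sw ρ).1 : ℂ)) = 0 := by
  unfold sw
  simp only
  set t : ℝ := Real.pi / |ρ.im| with ht
  have h1 : ρ * (t : ℂ) = ((ρ.re * t : ℝ) : ℂ) + ((ρ.im * t : ℝ) : ℂ) * Complex.I := by
    conv_lhs => rw [← Complex.re_add_im ρ]
    push_cast
    ring
  have h2 : ρ.im * t = Real.pi ∨ ρ.im * t = -Real.pi := by
    rcases lt_or_gt_of_ne h with h3 | h3
    · right
      rw [ht, abs_of_neg h3]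
      field_simp
    · left
      rw [ht, abs_of_pos h3]
      field_simp
  have h3 : Complex.exp (((ρ.im * t : ℝ) : ℂ) * Complex.I) = -1 := by
    rcases h2 with h4 | h4
    · rw [h4, Complex.exp_pi_mul_I]
    · rw [h4]
      push_cast
      rw [neg_mul, Complex.exp_neg, Complex.exp_pi_mul_I]
      norm_num
  rw [h1, Complex.exp_add, h3, Complex.ofReal_exp]
  have h5 : Complex.exp (((-(ρ.re * t) : ℝ)) : ℂ) * Complex.exp (((ρ.re * t : ℝ)) : ℂ) = 1 := by
    rw [← Complex.exp_add]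
    push_cast
    rw [neg_add_cancel, Complex.exp_zero]
  rw [← mul_assoc, h5]
  ring

theorem zl_kill {Z : Finset ℂ} {ρ : ℂ} (hρ : ρ ∈ Z) (h : ρ.im ≠ 0) : HH (zl Z) ρ = 0 := by
  unfold HH zl
  rw [List.map_map]
  apply List.prod_eq_zero
  rw [List.mem_map]
  exact ⟨ρ, Finset.mem_toList.2 hρ, sw_kill h⟩

theorem HH_le {l : List (ℝ × ℝ)} (hl : Ok l) {s : ℂ} (hs : s.re ≤ 3 / 2) :
    ‖HH l s‖ ≤ mass l * Real.exp (3 / 2 * shift l) := by
  induction l with
  | nil => simp [HH, mass, shift]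
  | cons q l ih =>
    rw [HH_cons, mass_cons, shift_cons, norm_mul]
    have h1 := hl.head.1
    have h2 := hl.head.2
    have h3 : ‖1 + (q.2 : ℂ) * Complex.exp (s * q.1)‖ ≤ (1 + q.2) * Real.exp (3 / 2 * q.1) := by
      refine (norm_add_le _ _).trans ?_
      rw [norm_one, norm_mul, Complex.norm_real, Real.norm_of_nonneg h2, Complex.norm_exp]
      have h4 : (s * (q.1 : ℂ)).re = s.re * q.1 := by simp
      rw [h4]
      have h5 : Real.exp (s.re * q.1) ≤ Real.exp (3 / 2 * q.1) :=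
        Real.exp_le_exp.2 (mul_le_mul_of_nonneg_right hs h1)
      have h6 : 1 ≤ Real.exp (3 / 2 * q.1) := Real.one_le_exp (by positivity)
      have h7 := mul_le_mul_of_nonneg_left h5 h2
      linarith
    have hm := mass_ge hl.tail
    calc ‖1 + (q.2 : ℂ) * Complex.exp (s * q.1)‖ * ‖HH l s‖
        ≤ ((1 + q.2) * Real.exp (3 / 2 * q.1)) * (mass l * Real.exp (3 / 2 * shift l)) := by
          apply mul_le_mul h3 (ih hl.tail) (norm_nonneg _) (by positivity)
      _ = (1 + q.2) * mass l * (Real.exp (3 / 2 * q.1) * Real.exp (3 / 2 * shift l)) := by ring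
      _ = _ := by rw [← Real.exp_add]; congr 2; ring

/-- the constant of the bounds -/
def WW (θ : ℝ) (l : List (ℝ × ℝ)) : ℝ := 2 / θ * (2 * (mass l * Real.exp (3 / 2 * shift l))) * 5

theorem WW_pos {θ : ℝ} (hθ : 0 < θ) {l : List (ℝ × ℝ)} (hl : Ok l) : 0 < WW θ l := by
  have := mass_ge hl
  unfold WW
  positivity

theorem mass_W {l : List (ℝ × ℝ)} (hl : Ok l) : mass l ≤ mass l * Real.exp (3 / 2 * shift l) := by
  have h1 := mass_ge hl
  have h2 : 1 ≤ Real.exp (3 / 2 * shift l) := Real.one_le_exp (mul_nonneg (by norm_num) (shift_nonneg hl))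
  nlinarith

theorem exp_32 : Real.exp (3 / 2) ≤ 5 := by
  have h1 := Real.exp_one_lt_d9
  have h2 : Real.exp (3 / 2) = Real.exp 1 * Real.exp (1 / 2) := by rw [← Real.exp_add]; norm_num
  have h3 : Real.exp (1 / 2) * Real.exp (1 / 2) = Real.exp 1 := by rw [← Real.exp_add]; norm_num
  have h4 : Real.exp (1 / 2) ≤ 1.7 := by
    by_contra hcon
    push Not at hcon
    nlinarith
  rw [h2]
  have := Real.exp_pos 1
  nlinarith [Real.exp_pos (1 / 2)]

theorem ph_prod {M : ℕ} {δ η : ℝ} (hδ : 0 < δ) (hη : 0 < η) (hlen : (M + 2) * δ + η ≤ 1) {s : ℂ}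
    (hs : s.re ≤ 3 / 2) : ‖ph (s * δ) ^ (M + 2) * ph (s * η)‖ ≤ 5 := by
  rw [norm_mul, norm_pow]
  calc ‖ph (s * δ)‖ ^ (M + 2) * ‖ph (s * η)‖
      ≤ Real.exp (3 / 2 * δ) ^ (M + 2) * Real.exp (3 / 2 * η) := by
        have h1 := ph_le hδ hs
        have h2 := ph_le hη hs
        gcongr
    _ = Real.exp ((M + 2 : ℕ) * (3 / 2 * δ) + 3 / 2 * η) := by rw [Real.exp_add, Real.exp_nat_mul]
    _ ≤ Real.exp (3 / 2) := by
        apply Real.exp_le_exp.2
        push_cast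
        linarith
    _ ≤ 5 := exp_32

theorem EP_num {l : List (ℝ × ℝ)} {U V : ℝ} {M : ℕ} {δ η : ℝ} {s : ℂ} (h0 : 0 < s.re) :
    ‖EP l U V M δ η s‖ = ‖HH l s * Complex.exp (s * U) - (mass l : ℂ) * Complex.exp (-(s * V))‖ / ‖s‖ *
      ‖ph (s * δ) ^ (M + 2) * ph (s * η)‖ := by
  have hs0 : s ≠ 0 := by
    rintro rfl
    simp at h0
  rw [EP_eq l U V M δ η hs0, mul_assoc, norm_mul, norm_div]

theorem EP_killed {l : List (ℝ × ℝ)} (hl : Ok l) {U V : ℝ} (hV : 0 ≤ V) {M : ℕ} {δ η θ : ℝ} (hθ : 0 < θ)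
    (hδ : 0 < δ) (hη : 0 < η) (hlen : (M + 2) * δ + η ≤ 1) {s : ℂ}
    (h1 : θ / 2 ≤ s.re) (h2 : s.re ≤ 3 / 2) (hk : HH l s = 0) : ‖EP l U V M δ η s‖ ≤ WW θ l := by
  have h0 : 0 < s.re := by linarith
  have hm := mass_ge hl
  rw [EP_num h0, hk, zero_mul, zero_sub, norm_neg, norm_mul, Complex.norm_real,
    Real.norm_of_nonneg (by linarith), Complex.norm_exp]
  have h3 : (-(s * (V : ℂ))).re = -(s.re * V) := by simp
  rw [h3]
  have h4 : Real.exp (-(s.re * V)) ≤ 1 := Real.exp_le_one_iff.2 (by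
    have := mul_nonneg h0.le hV
    linarith)
  have h5 : θ / 2 ≤ ‖s‖ := h1.trans (Complex.re_le_norm s)
  have h6 := mass_W hl
  calc mass l * Real.exp (-(s.re * V)) / ‖s‖ * ‖ph (s * δ) ^ (M + 2) * ph (s * η)‖
      ≤ (mass l * Real.exp (3 / 2 * shift l)) * 1 / (θ / 2) * 5 := by
        have := ph_prod hδ hη hlen h2
        gcongr
    _ ≤ WW θ l := by
        unfold WW
        have : 0 ≤ mass l * Real.exp (3 / 2 * shift l) := by positivity
        have e : mass l * Real.exp (3 / 2 * shift l) * 1 / (θ / 2) * 5 =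
          2 / θ * (1 * (mass l * Real.exp (3 / 2 * shift l))) * 5 := by field_simp
        rw [e]
        gcongr
        norm_num

theorem EP_inner {l : List (ℝ × ℝ)} (hl : Ok l) {U V : ℝ} (hU : 0 ≤ U) (hV : 0 ≤ V) {M : ℕ} {δ η θ : ℝ}
    (hθ : 0 < θ) (hδ : 0 < δ) (hη : 0 < η) (hlen : (M + 2) * δ + η ≤ 1) {s : ℂ}
    (h1 : θ / 2 ≤ s.re) (h2 : s.re ≤ 3 / 2) : ‖EP l U V M δ η s‖ ≤ WW θ l * Real.exp (s.re * U) := by
  have h0 : 0 < s.re := by linarith
  have hm := mass_ge hl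
  rw [EP_num h0]
  have h5 : θ / 2 ≤ ‖s‖ := h1.trans (Complex.re_le_norm s)
  have h6 := mass_W hl
  have h7 : 1 ≤ Real.exp (s.re * U) := Real.one_le_exp (by positivity)
  set X := mass l * Real.exp (3 / 2 * shift l) with hX
  have hX0 : 0 ≤ X := by linarith
  have h8 : ‖HH l s * Complex.exp (s * U) - (mass l : ℂ) * Complex.exp (-(s * V))‖ ≤
      2 * X * Real.exp (s.re * U) := by
    refine (norm_sub_le _ _).trans ?_
    rw [norm_mul, norm_mul, Complex.norm_exp, Complex.norm_exp, Complex.norm_real,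
      Real.norm_of_nonneg (by linarith)]
    have h3 : (-(s * (V : ℂ))).re = -(s.re * V) := by simp
    have h3' : (s * (U : ℂ)).re = s.re * U := by simp
    rw [h3, h3']
    have h4 : Real.exp (-(s.re * V)) ≤ 1 := Real.exp_le_one_iff.2 (by
      have := mul_nonneg h0.le hV
      linarith)
    have a1 : ‖HH l s‖ * Real.exp (s.re * U) ≤ X * Real.exp (s.re * U) := by
      gcongr
      exact HH_le hl h2
    have a2 : mass l * Real.exp (-(s.re * V)) ≤ X * Real.exp (s.re * U) :=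
      mul_le_mul h6 (h4.trans h7) (Real.exp_pos _).le hX0
    linarith
  calc ‖HH l s * Complex.exp (s * U) - (mass l : ℂ) * Complex.exp (-(s * V))‖ / ‖s‖ *
        ‖ph (s * δ) ^ (M + 2) * ph (s * η)‖
      ≤ 2 * X * Real.exp (s.re * U) / (θ / 2) * 5 := by
        have := ph_prod hδ hη hlen h2
        gcongr
    _ = WW θ l * Real.exp (s.re * U) := by
        unfold WW
        rw [← hX]
        field_simp

theorem ph_tail {T δ : ℝ} (hδ : 0 < δ) (hδ1 : δ ≤ 1 / 4) (hTδ : 30 ≤ T * δ) {s : ℂ} (hT : 0 < T)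
    (h2 : s.re ≤ 3 / 2) (h3 : T ≤ |s.im|) : ‖ph (s * δ)‖ ≤ 1 / 10 * (T / |s.im|) := by
  set y := |s.im| with hy
  have hy0 : 0 < y := by linarith
  have hs0 : s ≠ 0 := by
    rintro rfl
    simp at hy
    linarith
  have hδ0 : (δ : ℂ) ≠ 0 := by exact_mod_cast hδ.ne'
  refine (ph_far (mul_ne_zero hs0 hδ0)).trans ?_
  have h4 : (s * (δ : ℂ)).re = s.re * δ := by simp
  have h5 : Real.exp (s.re * δ) ≤ 2 := by
    calc Real.exp (s.re * δ) ≤ Real.exp (1 / 2) := Real.exp_le_exp.2 (by nlinarith)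
      _ ≤ 2 := by
        have := Real.exp_one_lt_d9
        have h6 : Real.exp (1 / 2) * Real.exp (1 / 2) = Real.exp 1 := by rw [← Real.exp_add]; norm_num
        nlinarith [Real.exp_pos (1 / 2)]
  rw [h4, norm_mul, Complex.norm_real, Real.norm_of_nonneg hδ.le]
  have h6 : y ≤ ‖s‖ := Complex.abs_im_le_norm s
  calc (Real.exp (s.re * δ) + 1) / (‖s‖ * δ) ≤ 3 / (y * δ) := by
        gcongr
        linarith
    _ ≤ 1 / 10 * (T / y) := by
        rw [div_le_iff₀ (by positivity)]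
        have : 1 / 10 * (T / y) * (y * δ) = T * δ / 10 := by field_simp
        rw [this]
        linarith

theorem EP_outer {l : List (ℝ × ℝ)} (hl : Ok l) {U V : ℝ} (hU : 0 ≤ U) (hV : 0 ≤ V) {M : ℕ} {δ η θ T : ℝ}
    (hθ : 0 < θ) (hδ : 0 < δ) (hδ1 : δ ≤ 1 / 4) (hη : 0 < η) (hη1 : η ≤ 1) (hT : 0 < T) (hTδ : 30 ≤ T * δ)
    (hexp : Real.exp (3 / 2 * U) ≤ 10 ^ M) {s : ℂ}
    (h1 : θ / 2 ≤ s.re) (h2 : s.re ≤ 3 / 2) (h3 : T ≤ |s.im|) :
    ‖EP l U V M δ η s‖ ≤ WW θ l * (T / |s.im|) ^ 2 := by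
  have h0 : 0 < s.re := by linarith
  have hm := mass_ge hl
  have hy0 : 0 < |s.im| := by linarith
  rw [EP_num h0]
  have h5 : θ / 2 ≤ ‖s‖ := h1.trans (Complex.re_le_norm s)
  have h6 := mass_W hl
  set X := mass l * Real.exp (3 / 2 * shift l) with hX
  have hX0 : 0 ≤ X := by linarith
  have h10 : (1 : ℝ) ≤ 10 ^ M := one_le_pow₀ (by norm_num)
  have h8 : ‖HH l s * Complex.exp (s * U) - (mass l : ℂ) * Complex.exp (-(s * V))‖ ≤ 2 * X * 10 ^ M := by
    refine (norm_sub_le _ _).trans ?_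
    rw [norm_mul, norm_mul, Complex.norm_exp, Complex.norm_exp, Complex.norm_real,
      Real.norm_of_nonneg (by linarith)]
    have h3 : (-(s * (V : ℂ))).re = -(s.re * V) := by simp
    have h3' : (s * (U : ℂ)).re = s.re * U := by simp
    rw [h3, h3']
    have h4 : Real.exp (-(s.re * V)) ≤ 1 := Real.exp_le_one_iff.2 (by
      have := mul_nonneg h0.le hV
      linarith)
    have h4' : Real.exp (s.re * U) ≤ 10 ^ M := (Real.exp_le_exp.2 (mul_le_mul_of_nonneg_right h2 hU)).trans hexp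
    have a1 : ‖HH l s‖ * Real.exp (s.re * U) ≤ X * 10 ^ M := by
      gcongr
      exact HH_le hl h2
    have a2 : mass l * Real.exp (-(s.re * V)) ≤ X * 10 ^ M :=
      mul_le_mul h6 (h4.trans h10) (Real.exp_pos _).le hX0
    linarith
  have hTy : T / |s.im| ≤ 1 := by rw [div_le_one hy0]; exact h3
  have hTy0 : 0 ≤ T / |s.im| := by positivity
  have h9 : ‖ph (s * δ) ^ (M + 2) * ph (s * η)‖ ≤ (1 / 10) ^ M * (T / |s.im|) ^ 2 * 5 := by
    rw [norm_mul, norm_pow]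
    have a1 := ph_tail hδ hδ1 hTδ hT h2 h3
    have a2 : ‖ph (s * η)‖ ≤ 5 := by
      refine (ph_le hη h2).trans (le_trans (Real.exp_le_exp.2 ?_) exp_32)
      linarith
    calc ‖ph (s * δ)‖ ^ (M + 2) * ‖ph (s * η)‖ ≤ (1 / 10 * (T / |s.im|)) ^ (M + 2) * 5 := by gcongr
      _ = (1 / 10) ^ M * (1 / 100 * ((T / |s.im|) ^ M * (T / |s.im|) ^ 2)) * 5 := by
          rw [mul_pow, pow_add, pow_add]; ring
      _ ≤ (1 / 10) ^ M * (1 * (1 * (T / |s.im|) ^ 2)) * 5 := by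
          have := pow_le_one₀ hTy0 hTy (n := M)
          gcongr
          norm_num
      _ = _ := by ring
  calc ‖HH l s * Complex.exp (s * U) - (mass l : ℂ) * Complex.exp (-(s * V))‖ / ‖s‖ *
        ‖ph (s * δ) ^ (M + 2) * ph (s * η)‖
      ≤ 2 * X * 10 ^ M / (θ / 2) * ((1 / 10) ^ M * (T / |s.im|) ^ 2 * 5) := by
        gcongr
    _ = (2 * X / (θ / 2) * 5 * (T / |s.im|) ^ 2) * ((1 / 10) ^ M * 10 ^ M) := by ring
    _ = WW θ l * (T / |s.im|) ^ 2 := by
        rw [← mul_pow]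
        norm_num
        unfold WW
        rw [← hX]
        left
        field_simp

/-- the value at a positive real number -/
theorem EP_real {l : List (ℝ × ℝ)} (hl : Ok l) {U V : ℝ} (hU : 0 ≤ U) (hV : 0 ≤ V) (M : ℕ) {δ η : ℝ}
    (hδ : 0 < δ) (hη : 0 < η) {h : ℝ} (hh : 0 ≤ h) {x : ℝ} (hx : 0 < x) :
    ∃ r r' : ℝ, 0 ≤ r ∧ r ≤ r' ∧ EP l U V M δ η (x : ℂ) = (r : ℂ) ∧ EP l (U + h) V M δ η (x : ℂ) = (r' : ℂ) := by
  have hx0 : (x : ℂ) ≠ 0 := by exact_mod_cast hx.ne'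
  obtain ⟨k, hk1, hk2⟩ := HH_real l hl hx.le
  have hm := mass_ge hl
  have e1 : ∀ t : ℝ, 0 < t → ∃ r : ℝ, 0 ≤ r ∧ ph ((x : ℂ) * t) = (r : ℂ) := by
    intro t ht
    have h0 : (x : ℂ) * t ≠ 0 := mul_ne_zero hx0 (by exact_mod_cast ht.ne')
    refine ⟨(Real.exp (x * t) - 1) / (x * t), ?_, ?_⟩
    · have : 1 ≤ Real.exp (x * t) := Real.one_le_exp (by positivity)
      apply div_nonneg (by linarith) (by positivity)
    · rw [ph_eq h0]
      push_cast
      rfl
  obtain ⟨r1, h1, h1'⟩ := e1 δ hδ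
  obtain ⟨r2, h2, h2'⟩ := e1 η hη
  have hu : Real.exp (-(x * V)) ≤ Real.exp (x * U) := Real.exp_le_exp.2 (by
    have := mul_nonneg hx.le hV
    have := mul_nonneg hx.le hU
    linarith)
  have hv : Real.exp (x * U) ≤ Real.exp (x * (U + h)) := Real.exp_le_exp.2 (by nlinarith)
  have hp := Real.exp_pos (x * U)
  refine ⟨(k * Real.exp (x * U) - mass l * Real.exp (-(x * V))) / x * r1 ^ (M + 2) * r2,
    (k * Real.exp (x * (U + h)) - mass l * Real.exp (-(x * V))) / x * r1 ^ (M + 2) * r2, ?_, ?_, ?_, ?_⟩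
  · have : mass l * Real.exp (-(x * V)) ≤ k * Real.exp (x * U) := by
      apply mul_le_mul hk1 hu (Real.exp_pos _).le (by linarith)
    have : 0 ≤ k * Real.exp (x * U) - mass l * Real.exp (-(x * V)) := by linarith
    positivity
  · have : k * Real.exp (x * U) ≤ k * Real.exp (x * (U + h)) := mul_le_mul_of_nonneg_left hv (by linarith)
    gcongr
  · rw [EP_eq l U V M δ η hx0, hk2, h1', h2']
    push_cast
    rfl
  · rw [EP_eq l (U + h) V M δ η hx0, hk2, h1', h2']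
    push_cast
    rfl

end

end Pool.Agent.N739.LL
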