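import Pool.Agent.N739.LL.Pos
import Pool.Agent.N739.LL.Contour

/-!
# The multiplier of the positive operator
-/

set_option autoImplicit false

open MeasureTheory Filter Topology Set

namespace Pool.Agent.N739.LL

open Pool.Agent.N739.LW
open Pool.Agent.H295R2 (Nice Lap avg phi step step_nice Lap_step scale_integral)
open Pool.Agent.W190.Q306 (PG perron_gen PG_bound)
open H370 (mult)

noncomputable section

/-- the multiplier -/
def EP (l : List (ℝ × ℝ)) (U V : ℝ) (M : ℕ) (δ η : ℝ) (s : ℂ) : ℂ :=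
  dslope (fun z : ℂ => HH l z * Complex.exp (z * (U + V))) 0 s * Complex.exp (-(s * V)) *
    ph (s * δ) ^ (M + 2) * ph (s * η)

theorem EP_diff (l : List (ℝ × ℝ)) (U V : ℝ) (M : ℕ) (δ η : ℝ) : Differentiable ℂ (EP l U V M δ η) := by
  have h0 : Differentiable ℂ (fun z : ℂ => HH l z * Complex.exp (z * (U + V))) :=
    (HH_diff l).mul (by fun_prop)
  have h1 : Differentiable ℂ (dslope (fun z : ℂ => HH l z * Complex.exp (z * (U + V))) 0) := by
    have h := (Complex.differentiableOn_dslope (f := fun z : ℂ => HH l z * Complex.exp (z * (U + V)))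
      (c := (0 : ℂ)) (s := univ) (by simp)).2 h0.differentiableOn
    exact differentiableOn_univ.1 h
  unfold EP
  have h2 : Differentiable ℂ fun s : ℂ => ph (s * δ) := ph_diff.comp (differentiable_id.mul_const _)
  have h3 : Differentiable ℂ fun s : ℂ => ph (s * η) := ph_diff.comp (differentiable_id.mul_const _)
  have h4 : Differentiable ℂ fun s : ℂ => Complex.exp (-(s * V)) := by fun_prop
  exact ((h1.mul h4).mul (h2.pow (M + 2))).mul h3

theorem EP_eq (l : List (ℝ × ℝ)) (U V : ℝ) (M : ℕ) (δ η : ℝ) {s : ℂ} (hs : s ≠ 0) :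
    EP l U V M δ η s = (HH l s * Complex.exp (s * U) - (mass l : ℂ) * Complex.exp (-(s * V))) / s *
      ph (s * δ) ^ (M + 2) * ph (s * η) := by
  unfold EP
  rw [dslope_of_ne _ hs, slope_def_field, sub_zero, HH_zero]
  have e : Complex.exp (s * (U + V)) * Complex.exp (-(s * V)) = Complex.exp (s * U) := by
    rw [← Complex.exp_add]; ring_nf
  have e2 : (HH l s * Complex.exp (s * (U + V)) - (mass l : ℂ) * Complex.exp (0 * ((U : ℂ) + V))) / s *
      Complex.exp (-(s * V)) = (HH l s * Complex.exp (s * U) - (mass l : ℂ) * Complex.exp (-(s * V))) / s := by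
    rw [zero_mul, Complex.exp_zero, mul_one, ← e]
    ring
  rw [e2]

variable {G g : ℂ → ℂ} {a : ℕ → ℂ}

theorem PG_int (h : LG G g a) {k : ℝ → ℂ} {C u₀ : ℝ} (hk : Nice k C 0 u₀) {δ x : ℝ} (hδ : 0 < δ) (hδ1 : δ ≤ 1) :
    Integrable fun y : ℝ => PG δ x k (Fz G g) (((3 / 2 : ℝ) : ℂ) + y * Complex.I) := by
  obtain ⟨Cf, hCf, hb⟩ := h.Fz_bound
  obtain ⟨B, hB⟩ := PG_bound (x := x) (σ := 3 / 2) (F := Fz G g) (Cf := Cf) hk hδ hδ1 (by norm_num)
    (fun s hs1 _ => by
      refine (hb s hs1).trans ?_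
      have : 1 ≤ (1 + |s.im|) ^ (1 / 2 : ℝ) := Real.one_le_rpow (by linarith [abs_nonneg s.im]) (by norm_num)
      nlinarith)
  refine Pool.Agent.H295R2.vertical_integrable (H := PG δ x k (Fz G g)) (a := 3 / 2) (B := B) ?_ ?_
  · intro s hs
    have hs0 : s ≠ 0 := by rintro rfl; norm_num at hs
    have hre : 0 < s.re := by rw [hs]; norm_num
    unfold PG
    have d1 : DifferentiableAt ℂ (Lap k) s := hk.Lap_differentiableAt hre
    have d2 : DifferentiableAt ℂ (phi δ) s := by
      unfold phi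
      apply DifferentiableAt.div
      · fun_prop
      · fun_prop
      · exact mul_ne_zero hs0 (by exact_mod_cast hδ.ne')
    have d3 : DifferentiableAt ℂ (Fz G g) s := h.Fz_diff hs.ge
    have d4 : DifferentiableAt ℂ (fun s : ℂ => Complex.exp (s * x)) s := by fun_prop
    exact (((d1.mul (d2.pow 2)).mul d4).mul d3).continuousAt
  · intro s hs
    exact hB s hs.ge (by rw [hs]; norm_num)

theorem perron_sum (h : LG G g a) {k : ℝ → ℂ} {C u₀ : ℝ} (hk : Nice k C 0 u₀) {δ : ℝ} (x : ℝ) (hδ : 0 < δ)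
    (hδ1 : δ ≤ 1) :
    HasSum (fun n : ℕ => a n * avg δ (avg δ k) (x - Real.log n))
      (((2 * Real.pi)⁻¹ : ℂ) * ∫ y : ℝ, PG δ x k (Fz G g) (((3 / 2 : ℝ) : ℂ) + y * Complex.I)) := by
  obtain ⟨Cf, hCf, hb⟩ := h.Fz_bound
  have key := perron_gen (σ := 3 / 2) (x := x) (F := Fz G g) (a := a) (Cf := Cf) (by norm_num) (by norm_num)
    (fun s hs1 _ => h.Fz_diff hs1)
    (fun s hs1 _ => by
      refine (hb s hs1).trans ?_
      have : 1 ≤ (1 + |s.im|) ^ (1 / 2 : ℝ) := Real.one_le_rpow (by linarith [abs_nonneg s.im]) (by norm_num)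
      nlinarith)
    (by
      have h2 : (3 / 2 : ℝ) ≤ ((2 : ℝ) : ℂ).re := by rw [Complex.ofReal_re]; norm_num
      refine (h.summ h2).1.congr fun n => ?_
      rw [LSeries.norm_term_eq]
      by_cases hn : n = 0
      · simp [hn]
      · rw [if_neg hn, Complex.ofReal_re]
        norm_cast
        ring)
    h.a0
    (fun s hs => by
      unfold Fz
      exact h.ser s (by rw [hs]; norm_num))
    hk hδ hδ1
  rw [scale_integral] at key
  push_cast at key ⊢
  exact key

theorem perron_P (h : LG G g a) {l : List (ℝ × ℝ)} (hl : Ok l) (M : ℕ) {δ η U V : ℝ} (hδ : 0 < δ)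
    (hδ1 : δ ≤ 1) (hη : 0 < η) (hV : (M + 2) * δ + η < V) {N : ℕ} (hN : 1 ≤ N)
    (hN2 : U + len l M δ η ≤ Real.log N) :
    ∑ n ∈ Finset.Icc 1 N, a n * Ph l M δ η step (U - Real.log n) = Iv G g (EP l U V M δ η) := by
  have n1 := step_nice.avg hη
  have n2 := avgs_nice hδ n1 M
  have n3 := pops_nice hl n2
  have n4 : Nice (fun u => (mass l : ℂ) * (avg δ)^[M] (avg η step) u) (mass l * 1) 0 (0 - η - M * δ) :=
    { meas := n2.meas.const_mul _
      bound := fun u => by
        have h1 := n2.bound u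
        have h2 : 0 ≤ mass l := by linarith [mass_ge hl]
        rw [norm_mul, Complex.norm_real, Real.norm_of_nonneg h2, mul_assoc]
        exact mul_le_mul_of_nonneg_left h1 h2
      zero := fun u hu => by
        have h0 : (mass l : ℂ) * (avg δ)^[M] (avg η step) u = 0 := by rw [n2.zero u hu, mul_zero]
        exact h0 }
  have k1 := perron_sum h n3 U hδ hδ1
  have k2 := perron_sum h n4 (-V) hδ hδ1
  have n5 := (n4.avg hδ).avg hδ
  have z2 : (((2 * Real.pi)⁻¹ : ℂ) * ∫ y : ℝ, PG δ (-V) (fun u => (mass l : ℂ) * (avg δ)^[M] (avg η step) u)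
      (Fz G g) (((3 / 2 : ℝ) : ℂ) + y * Complex.I)) = 0 := by
    refine k2.unique ?_
    have : (fun n : ℕ => a n * avg δ (avg δ (fun u => (mass l : ℂ) * (avg δ)^[M] (avg η step) u))
        (-V - Real.log n)) = fun _ => 0 := by
      funext n
      rcases Nat.eq_zero_or_pos n with rfl | hn0
      · rw [h.a0, zero_mul]
      · rw [n5.zero, mul_zero]
        have : 0 ≤ Real.log n := Real.log_nonneg (by exact_mod_cast hn0)
        linarith
    rw [this]
    exact hasSum_zero
  have hzero : ∀ n ∉ Finset.Icc 1 N, a n * avg δ (avg δ (pops l ((avg δ)^[M] (avg η step)))) (U - Real.log n) = 0 := by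
    intro n hn
    rcases Nat.eq_zero_or_pos n with rfl | hn0
    · rw [h.a0, zero_mul]
    · have hn1 : N < n := by
        by_contra hcon
        exact hn (Finset.mem_Icc.mpr ⟨hn0, by omega⟩)
      have h2 : Real.log N < Real.log n := by
        apply Real.log_lt_log (by exact_mod_cast hN)
        exact_mod_cast hn1
      have h3 := Ph_zero hl M hδ hη (u := U - Real.log n) (by linarith)
      unfold Ph at h3
      rw [h3, mul_zero]
  have hsum := (hasSum_sum_of_ne_finset_zero hzero).unique k1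
  have i1 := PG_int h n3 (x := U) hδ hδ1
  have i2 := PG_int h n4 (x := -V) hδ hδ1
  unfold Ph
  rw [hsum, ← sub_zero (((2 * Real.pi)⁻¹ : ℂ) * _), ← z2, ← mul_sub, ← integral_sub i1 i2]
  unfold Iv
  congr 1
  apply integral_congr_ae
  refine Eventually.of_forall fun y => ?_
  simp only
  have hre : 0 < (((3 / 2 : ℝ) : ℂ) + y * Complex.I).re := by simp
  have hs0 : (((3 / 2 : ℝ) : ℂ) + y * Complex.I) ≠ 0 := by
    intro h; rw [h] at hre; simp at hre
  set s : ℂ := ((3 / 2 : ℝ) : ℂ) + y * Complex.I with hs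
  rw [EP_eq l U V M δ η hs0]
  unfold PG
  have e1 : Lap (pops l ((avg δ)^[M] (avg η step))) s = HH l s * (phi δ s ^ M * (phi η s * (1 / s))) := by
    rw [Lap_pops hl n2 hre, Lap_avgs hδ n1 M hre, step_nice.Lap_avg hη hre, Lap_step hre]
  have e2 : Lap (fun u => (mass l : ℂ) * (avg δ)^[M] (avg η step) u) s =
      (mass l : ℂ) * (phi δ s ^ M * (phi η s * (1 / s))) := by
    have e0 : Lap (fun u => (mass l : ℂ) * (avg δ)^[M] (avg η step) u) s =
        (mass l : ℂ) * Lap ((avg δ)^[M] (avg η step)) s := by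
      unfold Lap
      rw [← integral_const_mul]
      congr 1
      funext u
      ring
    rw [e0, Lap_avgs hδ n1 M hre, step_nice.Lap_avg hη hre, Lap_step hre]
  rw [e1, e2, phi_ph hδ hs0, phi_ph hη hs0]
  have e3 : Complex.exp (s * ((-V : ℝ) : ℂ)) = Complex.exp (-(s * V)) := by
    congr 1
    push_cast
    ring
  rw [e3]
  field_simp
  ring

end

end Pool.Agent.N739.LL
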