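import Pool.Agent.N799.LW.Ops

/-!
# Positive operators which annihilate given frequencies
-/

set_option autoImplicit false

open MeasureTheory Filter Topology Set

namespace Pool.Agent.N739.LL

open Pool.Agent.H295R2 (Nice Lap avg phi step step_nice Lap_step)
open Pool.Agent.N799.LW (avg_sum)

noncomputable section

/-- the positive operator `f(u) + c f(u + a)` -/
def pop (q : ℝ × ℝ) (f : ℝ → ℂ) (u : ℝ) : ℂ := f u + (q.2 : ℂ) * f (u + q.1)

/-- composition of a list of positive operators -/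
def pops (l : List (ℝ × ℝ)) (f : ℝ → ℂ) : ℝ → ℂ := l.foldr pop f

theorem pops_nil (f : ℝ → ℂ) : pops [] f = f := rfl

theorem pops_cons (q : ℝ × ℝ) (l : List (ℝ × ℝ)) (f : ℝ → ℂ) : pops (q :: l) f = pop q (pops l f) := rfl

/-- all shifts and all weights are nonnegative -/
def Ok (l : List (ℝ × ℝ)) : Prop := ∀ q ∈ l, 0 ≤ q.1 ∧ 0 ≤ q.2

theorem Ok.tail {q : ℝ × ℝ} {l : List (ℝ × ℝ)} (h : Ok (q :: l)) : Ok l := fun p hp =>
  h p (List.mem_cons_of_mem _ hp)

theorem Ok.head {q : ℝ × ℝ} {l : List (ℝ × ℝ)} (h : Ok (q :: l)) : 0 ≤ q.1 ∧ 0 ≤ q.2 :=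
  h q List.mem_cons_self

/-- the total shift -/
def shift (l : List (ℝ × ℝ)) : ℝ := (l.map fun q => q.1).sum

/-- the total mass -/
def mass (l : List (ℝ × ℝ)) : ℝ := (l.map fun q => 1 + q.2).prod

theorem shift_cons (q : ℝ × ℝ) (l : List (ℝ × ℝ)) : shift (q :: l) = q.1 + shift l := by
  unfold shift; simp

theorem mass_cons (q : ℝ × ℝ) (l : List (ℝ × ℝ)) : mass (q :: l) = (1 + q.2) * mass l := by
  unfold mass; simp

theorem shift_nonneg {l : List (ℝ × ℝ)} (h : Ok l) : 0 ≤ shift l := by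
  induction l with
  | nil => simp [shift]
  | cons q l ih =>
    rw [shift_cons]
    have := ih h.tail
    have := h.head.1
    linarith

theorem mass_ge {l : List (ℝ × ℝ)} (h : Ok l) : 1 ≤ mass l := by
  induction l with
  | nil => simp [mass]
  | cons q l ih =>
    rw [mass_cons]
    have h1 := ih h.tail
    have h2 := h.head.2
    nlinarith

theorem pop_nice {q : ℝ × ℝ} (h1 : 0 ≤ q.1) (h2 : 0 ≤ q.2) {k : ℝ → ℂ} {C u₀ : ℝ} (h : Nice k C 0 u₀) :
    Nice (pop q k) ((1 + q.2) * C) 0 (u₀ - q.1) where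
  meas := h.meas.add ((h.meas.comp (measurable_id.add_const q.1)).const_mul _)
  bound := by
    intro u
    have h3 : ∀ v, ‖k v‖ ≤ C := fun v => by simpa using h.bound v
    unfold pop
    refine (norm_add_le _ _).trans ?_
    rw [norm_mul, Complex.norm_real, Real.norm_of_nonneg h2, zero_mul, Real.exp_zero, mul_one, add_mul, one_mul]
    exact add_le_add (h3 u) (mul_le_mul_of_nonneg_left (h3 _) h2)
  zero := by
    intro u hu
    unfold pop
    rw [h.zero u (by linarith), h.zero (u + q.1) (by linarith)]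
    simp

theorem Lap_pop (q : ℝ × ℝ) {k : ℝ → ℂ} {C u₀ : ℝ} (h : Nice k C 0 u₀) {s : ℂ}
    (hs : 0 < s.re) : Lap (pop q k) s = (1 + q.2 * Complex.exp (s * q.1)) * Lap k s := by
  have i1 := h.shift_integrable hs q.1
  have i2 := h.integrable hs
  have e : ∀ u : ℝ, pop q k u * Complex.exp (-(s * u)) =
      k u * Complex.exp (-(s * u)) + (q.2 : ℂ) * (k (u + q.1) * Complex.exp (-(s * u))) := by
    intro u
    unfold pop
    ring
  conv_lhs => unfold Lap
  rw [integral_congr_ae (Eventually.of_forall e), integral_add i2 (i1.const_mul _), integral_const_mul,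
    h.Lap_shift]
  unfold Lap
  ring

theorem pops_nice {l : List (ℝ × ℝ)} (hl : Ok l) {k : ℝ → ℂ} {C u₀ : ℝ} (h : Nice k C 0 u₀) :
    Nice (pops l k) (mass l * C) 0 (u₀ - shift l) := by
  induction l with
  | nil => simpa [pops, mass, shift] using h
  | cons q l ih =>
    rw [pops_cons, mass_cons, shift_cons]
    have h1 := pop_nice hl.head.1 hl.head.2 (ih hl.tail)
    have e1 : (1 + q.2) * (mass l * C) = (1 + q.2) * mass l * C := by ring
    have e2 : u₀ - shift l - q.1 = u₀ - (q.1 + shift l) := by ring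
    rw [e1, e2] at h1
    exact h1

/-- the multiplier -/
def HH (l : List (ℝ × ℝ)) (s : ℂ) : ℂ := (l.map fun q => 1 + (q.2 : ℂ) * Complex.exp (s * q.1)).prod

theorem HH_cons (q : ℝ × ℝ) (l : List (ℝ × ℝ)) (s : ℂ) :
    HH (q :: l) s = (1 + (q.2 : ℂ) * Complex.exp (s * q.1)) * HH l s := by
  unfold HH; simp

theorem Lap_pops {l : List (ℝ × ℝ)} (hl : Ok l) {k : ℝ → ℂ} {C u₀ : ℝ} (h : Nice k C 0 u₀) {s : ℂ}
    (hs : 0 < s.re) : Lap (pops l k) s = HH l s * Lap k s := by
  induction l with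
  | nil => simp [pops, HH]
  | cons q l ih =>
    rw [pops_cons, Lap_pop q (pops_nice hl.tail h) hs, ih hl.tail, HH_cons]
    ring

theorem HH_diff (l : List (ℝ × ℝ)) : Differentiable ℂ (HH l) := by
  induction l with
  | nil =>
    have : HH [] = fun _ => 1 := by funext s; simp [HH]
    rw [this]
    exact differentiable_const _
  | cons q l ih =>
    have : HH (q :: l) = fun s => (1 + (q.2 : ℂ) * Complex.exp (s * q.1)) * HH l s := by
      funext s; exact HH_cons q l s
    rw [this]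
    exact Differentiable.mul (by fun_prop) ih

theorem HH_zero (l : List (ℝ × ℝ)) : HH l 0 = (mass l : ℂ) := by
  induction l with
  | nil => simp [HH, mass]
  | cons q l ih =>
    rw [HH_cons, ih, mass_cons]
    push_cast
    simp

theorem HH_real (l : List (ℝ × ℝ)) (hl : Ok l) {x : ℝ} (hx : 0 ≤ x) :
    ∃ r : ℝ, mass l ≤ r ∧ HH l (x : ℂ) = (r : ℂ) := by
  induction l with
  | nil => exact ⟨1, by simp [mass], by simp [HH]⟩
  | cons q l ih =>
    obtain ⟨r, h1, h2⟩ := ih hl.tail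
    refine ⟨(1 + q.2 * Real.exp (x * q.1)) * r, ?_, ?_⟩
    · rw [mass_cons]
      have h3 := mass_ge hl.tail
      have h4 : 1 ≤ Real.exp (x * q.1) := Real.one_le_exp (mul_nonneg hx hl.head.1)
      have h5 : q.2 * 1 ≤ q.2 * Real.exp (x * q.1) := mul_le_mul_of_nonneg_left h4 hl.head.2
      have h6 := hl.head.2
      apply mul_le_mul (by linarith) h1 (by linarith) (by linarith)
    · rw [HH_cons, h2]
      push_cast
      ring

/-! ### iterated averages -/

theorem avgs_nice {δ : ℝ} (hδ : 0 < δ) {k : ℝ → ℂ} {C u₀ : ℝ} (h : Nice k C 0 u₀) (M : ℕ) :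
    Nice ((avg δ)^[M] k) C 0 (u₀ - M * δ) := by
  induction M with
  | zero => simpa using h
  | succ M ih =>
    rw [Function.iterate_succ_apply']
    have h1 := ih.avg hδ
    have e : u₀ - M * δ - δ = u₀ - (M + 1 : ℕ) * δ := by push_cast; ring
    rw [e] at h1
    exact h1

theorem Lap_avgs {δ : ℝ} (hδ : 0 < δ) {k : ℝ → ℂ} {C u₀ : ℝ} (h : Nice k C 0 u₀) (M : ℕ) {s : ℂ}
    (hs : 0 < s.re) : Lap ((avg δ)^[M] k) s = phi δ s ^ M * Lap k s := by
  induction M with
  | zero => simp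
  | succ M ih =>
    rw [Function.iterate_succ_apply', (avgs_nice hδ h M).Lap_avg hδ hs, ih]
    ring

/-! ### sums of translates -/

theorem pop_sum (q : ℝ × ℝ) (k : ℝ → ℂ) (F : Finset ℕ)
    (c : ℕ → ℂ) (x : ℕ → ℝ) (u : ℝ) :
    pop q (fun u => ∑ n ∈ F, c n * k (u - x n)) u = ∑ n ∈ F, c n * pop q k (u - x n) := by
  unfold pop
  rw [Finset.mul_sum, ← Finset.sum_add_distrib]
  refine Finset.sum_congr rfl fun n _ => ?_
  have e : u + q.1 - x n = u - x n + q.1 := by ring
  rw [e]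
  ring

theorem pops_sum (l : List (ℝ × ℝ)) (k : ℝ → ℂ) (F : Finset ℕ) (c : ℕ → ℂ) (x : ℕ → ℝ) :
    pops l (fun u => ∑ n ∈ F, c n * k (u - x n)) = fun u => ∑ n ∈ F, c n * pops l k (u - x n) := by
  induction l with
  | nil => rfl
  | cons q l ih =>
    rw [pops_cons, ih]
    funext u
    exact pop_sum q (pops l k) F c x u

theorem avgs_sum {δ : ℝ} (hδ : 0 < δ) {k : ℝ → ℂ} {C u₀ : ℝ} (h : Nice k C 0 u₀) (M : ℕ) (F : Finset ℕ)
    (c : ℕ → ℂ) (x : ℕ → ℝ) :
    (avg δ)^[M] (fun u => ∑ n ∈ F, c n * k (u - x n)) = fun u => ∑ n ∈ F, c n * (avg δ)^[M] k (u - x n) := by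
  induction M with
  | zero => rfl
  | succ M ih =>
    rw [Function.iterate_succ_apply', ih]
    funext u
    rw [avg_sum (avgs_nice hδ h M)]
    simp only [Function.iterate_succ_apply']

/-! ### the operators see only a window -/

theorem avg_eqOn {δ : ℝ} (hδ : 0 < δ) {f g : ℝ → ℂ} {A B : ℝ} (h : EqOn f g (Icc A (B + δ))) :
    EqOn (avg δ f) (avg δ g) (Icc A B) := by
  intro u hu
  unfold avg
  congr 1
  apply intervalIntegral.integral_congr
  intro v hv
  rw [uIcc_of_le hδ.le] at hv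
  exact h ⟨by linarith [hu.1, hv.1], by linarith [hu.2, hv.2]⟩

theorem avgs_eqOn {δ : ℝ} (hδ : 0 < δ) (M : ℕ) {f g : ℝ → ℂ} {A : ℝ} : ∀ B : ℝ,
    EqOn f g (Icc A (B + M * δ)) → EqOn ((avg δ)^[M] f) ((avg δ)^[M] g) (Icc A B) := by
  induction M with
  | zero => intro B h; simpa using h
  | succ M ih =>
    intro B h
    rw [Function.iterate_succ_apply', Function.iterate_succ_apply']
    apply avg_eqOn hδ
    apply ih
    have e : B + δ + M * δ = B + (M + 1 : ℕ) * δ := by push_cast; ring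
    rw [e]
    exact h

theorem pops_eqOn {l : List (ℝ × ℝ)} (hl : Ok l) {f g : ℝ → ℂ} {A : ℝ} : ∀ B : ℝ,
    EqOn f g (Icc A (B + shift l)) → EqOn (pops l f) (pops l g) (Icc A B) := by
  induction l with
  | nil => intro B h; simpa [pops, shift] using h
  | cons q l ih =>
    intro B h u hu
    have h0 := hl.head.1
    have hs := shift_nonneg hl.tail
    rw [shift_cons] at h
    have h1 := ih hl.tail (B + q.1) (by
      have e : B + q.1 + shift l = B + (q.1 + shift l) := by ring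
      rw [e]
      exact h)
    rw [pops_cons, pops_cons]
    unfold pop
    rw [h1 ⟨hu.1, by linarith [hu.2]⟩, h1 ⟨by linarith [hu.1], by linarith [hu.2]⟩]

/-! ### the whole operator -/

/-- the whole operator -/
def Ph (l : List (ℝ × ℝ)) (M : ℕ) (δ η : ℝ) (f : ℝ → ℂ) : ℝ → ℂ :=
  avg δ (avg δ (pops l ((avg δ)^[M] (avg η f))))

/-- the length of the window -/
def len (l : List (ℝ × ℝ)) (M : ℕ) (δ η : ℝ) : ℝ := shift l + (M + 2) * δ + η

theorem Ph_congr {l : List (ℝ × ℝ)} (hl : Ok l) (M : ℕ) {δ η : ℝ} (hδ : 0 < δ) (hη : 0 < η) {f g : ℝ → ℂ}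
    {U : ℝ} (h : EqOn f g (Icc U (U + len l M δ η))) : Ph l M δ η f U = Ph l M δ η g U := by
  unfold Ph
  refine avg_eqOn hδ (A := U) (B := U) ?_ ⟨le_rfl, le_rfl⟩
  refine avg_eqOn hδ ?_
  apply pops_eqOn hl
  apply avgs_eqOn hδ
  apply avg_eqOn hη
  have e : U + δ + δ + shift l + M * δ + η = U + len l M δ η := by unfold len; ring
  rw [e]
  exact h

theorem Ph_sum {l : List (ℝ × ℝ)} (hl : Ok l) (M : ℕ) {δ η : ℝ} (hδ : 0 < δ) (hη : 0 < η)
    (F : Finset ℕ) (c : ℕ → ℂ) (x : ℕ → ℝ) (u : ℝ) :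
    Ph l M δ η (fun u => ∑ n ∈ F, c n * step (u - x n)) u = ∑ n ∈ F, c n * Ph l M δ η step (u - x n) := by
  have n1 := step_nice.avg hη
  have n2 := avgs_nice hδ n1 M
  have n3 := pops_nice hl n2
  have n4 := n3.avg hδ
  have e1 : avg η (fun u => ∑ n ∈ F, c n * step (u - x n)) = fun u => ∑ n ∈ F, c n * avg η step (u - x n) := by
    funext u
    exact avg_sum step_nice _ _ _ u
  have e2 : (avg δ)^[M] (avg η (fun u => ∑ n ∈ F, c n * step (u - x n))) =
      fun u => ∑ n ∈ F, c n * (avg δ)^[M] (avg η step) (u - x n) := by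
    rw [e1]
    exact avgs_sum hδ n1 M F c x
  have e3 : pops l ((avg δ)^[M] (avg η (fun u => ∑ n ∈ F, c n * step (u - x n)))) =
      fun u => ∑ n ∈ F, c n * pops l ((avg δ)^[M] (avg η step)) (u - x n) := by
    rw [e2]
    exact pops_sum l _ F c x
  have e4 : avg δ (pops l ((avg δ)^[M] (avg η (fun u => ∑ n ∈ F, c n * step (u - x n))))) =
      fun u => ∑ n ∈ F, c n * avg δ (pops l ((avg δ)^[M] (avg η step))) (u - x n) := by
    rw [e3]
    funext u
    exact avg_sum n3 _ _ _ u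
  unfold Ph
  rw [e4]
  exact avg_sum n4 _ _ _ u

theorem Ph_zero {l : List (ℝ × ℝ)} (hl : Ok l) (M : ℕ) {δ η : ℝ} (hδ : 0 < δ) (hη : 0 < η) {u : ℝ}
    (hu : u < -len l M δ η) : Ph l M δ η step u = 0 := by
  have n1 := step_nice.avg hη
  have n2 := avgs_nice hδ n1 M
  have n3 := pops_nice hl n2
  have n5 := (n3.avg hδ).avg hδ
  apply n5.zero
  unfold len at hu
  linarith

end

end Pool.Agent.N739.LL
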