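import Pool.Agent.N739.LL.Len

/-!
# The total shift is bounded
-/

set_option autoImplicit false

open MeasureTheory Filter Topology Set

namespace Pool.Agent.N739.LL

open Pool.Agent.N739.LW
open H370 (mult)

noncomputable section

variable {G g : ℂ → ℂ} {a : ℕ → ℂ}

/-- the zeros off the real line -/
def nr (h : LG G g a) {θ : ℝ} (hθ : 0 < θ) (T : ℝ) : Finset ℂ :=
  (h.NZ_fin hθ T).toFinset.filter fun ρ => ρ.im ≠ 0

theorem mem_nr {h : LG G g a} {θ : ℝ} {hθ : 0 < θ} {T : ℝ} {ρ : ℂ} :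
    ρ ∈ nr h hθ T ↔ (G ρ = 0 ∧ θ < ρ.re ∧ |ρ.im| < T) ∧ ρ.im ≠ 0 := by
  unfold nr
  rw [Finset.mem_filter, Set.Finite.mem_toFinset]
  rfl

theorem nr_mono (h : LG G g a) {θ : ℝ} (hθ : 0 < θ) {T T' : ℝ} (hT : T ≤ T') : nr h hθ T ⊆ nr h hθ T' := by
  intro ρ hρ
  rw [mem_nr] at hρ ⊢
  exact ⟨⟨hρ.1.1, hρ.1.2.1, lt_of_lt_of_le hρ.1.2.2 hT⟩, hρ.2⟩

theorem nr_card (h : LG G g a) {θ : ℝ} (hθ : 0 < θ) (T : ℝ) : (nr h hθ T).card ≤ (NZ G θ T).ncard := by
  rw [Set.ncard_eq_toFinset_card _ (h.NZ_fin hθ T)]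
  exact Finset.card_le_card (Finset.filter_subset _ _)

theorem shift_bdd (h : LG G g a) (hdens : Dens G) {θ : ℝ} (hθ : 0 < θ) (hθ1 : θ ≤ 1 / 2) :
    ∃ L : ℝ, 0 ≤ L ∧ ∀ T : ℝ, shift (zl (nr h hθ T)) ≤ L := by
  obtain ⟨C, hC, hcount⟩ := hdens (1 / 2) θ (by norm_num) hθ hθ1
  set r : ℝ := (2 : ℝ) ^ (-(θ / 2)) with hr
  have hr0 : 0 < r := by positivity
  have hr1 : r < 1 := Real.rpow_lt_one_of_one_lt_of_neg (by norm_num) (by linarith)
  set b : ℕ → ℝ := fun j => 2 * C * (((j + 1 : ℕ) : ℝ) * r ^ (j + 1)) with hb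
  have hb0 : ∀ j, 0 ≤ b j := fun j => by rw [hb]; positivity
  have hbs : Summable b := by
    have h1 := summable_pow_mul_geometric_of_norm_lt_one 1 (r := r) (by
      rw [Real.norm_of_nonneg hr0.le]; exact hr1)
    have h2 := (summable_nat_add_iff 1).2 h1
    simp only [pow_one] at h2
    exact h2.mul_left (2 * C)
  have hcj : ∀ j : ℕ, ((NZ G θ (2 ^ (j + 1))).ncard : ℝ) ≤ 2 ^ j * b j := by
    intro j
    refine (hcount (2 ^ (j + 1)) (by
      calc (2 : ℝ) = 2 ^ 1 := by norm_num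
        _ ≤ 2 ^ (j + 1) := pow_le_pow_right₀ (by norm_num) (by omega))).trans ?_
    have e1 : ((2 : ℝ) ^ (j + 1)) ^ (1 - 1 / 2 * θ) = 2 ^ (j + 1) * r ^ (j + 1) := by
      rw [hr, ← Real.rpow_natCast, ← Real.rpow_natCast, ← Real.rpow_mul (by norm_num), ← Real.rpow_mul (by norm_num),
        ← Real.rpow_add (by norm_num)]
      congr 1
      ring
    have e2 : Real.log ((2 : ℝ) ^ (j + 1)) ≤ ((j + 1 : ℕ) : ℝ) := by
      rw [Real.log_pow]
      have : Real.log 2 ≤ 1 := by linarith [Real.log_two_lt_d9]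
      calc ((j + 1 : ℕ) : ℝ) * Real.log 2 ≤ ((j + 1 : ℕ) : ℝ) * 1 := by gcongr
        _ = _ := mul_one _
    rw [e1]
    calc C * (2 ^ (j + 1) * r ^ (j + 1)) * Real.log (2 ^ (j + 1))
        ≤ C * (2 ^ (j + 1) * r ^ (j + 1)) * ((j + 1 : ℕ) : ℝ) := by gcongr
      _ = 2 ^ j * b j := by rw [hb]; simp only; rw [pow_succ (2 : ℝ) j]; ring
  set S : ℝ → ℝ := fun T => ∑ ρ ∈ nr h hθ T, 1 / |ρ.im| with hS
  have hstep : ∀ J : ℕ, S (2 ^ (J + 1)) ≤ S (2 ^ 1) + ∑ j ∈ Finset.range (J + 1), b j := by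
    intro J
    induction J with
    | zero =>
      simp only [zero_add]
      have := Finset.sum_nonneg fun j (_ : j ∈ Finset.range 1) => hb0 j
      linarith
    | succ J ih =>
      have hsub : nr h hθ (2 ^ (J + 1)) ⊆ nr h hθ (2 ^ (J + 1 + 1)) :=
        nr_mono h hθ (pow_le_pow_right₀ (by norm_num) (by omega))
      have h1 : S (2 ^ (J + 1 + 1)) = ∑ ρ ∈ nr h hθ (2 ^ (J + 1 + 1)) \ nr h hθ (2 ^ (J + 1)), 1 / |ρ.im| +
          S (2 ^ (J + 1)) := (Finset.sum_sdiff hsub).symm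
      have h2 : ∑ ρ ∈ nr h hθ (2 ^ (J + 1 + 1)) \ nr h hθ (2 ^ (J + 1)), 1 / |ρ.im| ≤ b (J + 1) := by
        calc ∑ ρ ∈ nr h hθ (2 ^ (J + 1 + 1)) \ nr h hθ (2 ^ (J + 1)), 1 / |ρ.im|
            ≤ ∑ ρ ∈ nr h hθ (2 ^ (J + 1 + 1)) \ nr h hθ (2 ^ (J + 1)), 1 / 2 ^ (J + 1) := by
              apply Finset.sum_le_sum
              intro ρ hρ
              rw [Finset.mem_sdiff, mem_nr, mem_nr] at hρ
              have h3 : (2 : ℝ) ^ (J + 1) ≤ |ρ.im| := by
                by_contra hcon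
                exact hρ.2 ⟨⟨hρ.1.1.1, hρ.1.1.2.1, not_le.1 hcon⟩, hρ.1.2⟩
              exact one_div_le_one_div_of_le (by positivity) h3
          _ = ((nr h hθ (2 ^ (J + 1 + 1)) \ nr h hθ (2 ^ (J + 1))).card : ℝ) * (1 / 2 ^ (J + 1)) := by
              rw [Finset.sum_const, nsmul_eq_mul]
          _ ≤ ((NZ G θ (2 ^ (J + 1 + 1))).ncard : ℝ) * (1 / 2 ^ (J + 1)) := by
              have h4 : (nr h hθ (2 ^ (J + 1 + 1)) \ nr h hθ (2 ^ (J + 1))).card ≤
                  (NZ G θ (2 ^ (J + 1 + 1))).ncard :=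
                (Finset.card_le_card Finset.sdiff_subset).trans (nr_card h hθ _)
              have h5 : ((nr h hθ (2 ^ (J + 1 + 1)) \ nr h hθ (2 ^ (J + 1))).card : ℝ) ≤
                  ((NZ G θ (2 ^ (J + 1 + 1))).ncard : ℝ) := by exact_mod_cast h4
              gcongr
          _ ≤ (2 ^ (J + 1) * b (J + 1)) * (1 / 2 ^ (J + 1)) := by
              have := hcj (J + 1)
              gcongr
          _ = b (J + 1) := by field_simp
      rw [Finset.sum_range_succ, h1]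
      calc _ ≤ b (J + 1) + (S (2 ^ 1) + ∑ j ∈ Finset.range (J + 1), b j) := add_le_add h2 ih
        _ = _ := by ring
  have hall : ∀ T : ℝ, S T ≤ S (2 ^ 1) + ∑' j, b j := by
    intro T
    obtain ⟨J, hJ⟩ := pow_unbounded_of_one_lt T (by norm_num : (1 : ℝ) < 2)
    have h1 : S T ≤ S (2 ^ (J + 1)) := by
      apply Finset.sum_le_sum_of_subset_of_nonneg
      · apply nr_mono
        exact hJ.le.trans (pow_le_pow_right₀ (by norm_num) (by omega))
      · intro ρ _ _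
        positivity
    have h2 := hstep J
    have h3 := hbs.sum_le_tsum (Finset.range (J + 1)) fun j _ => hb0 j
    linarith
  have hS0 : ∀ T, 0 ≤ S T := fun T => Finset.sum_nonneg fun ρ _ => by positivity
  have hB0 : 0 ≤ ∑' j, b j := tsum_nonneg hb0
  refine ⟨Real.pi * (S (2 ^ 1) + ∑' j, b j), ?_, fun T => ?_⟩
  · have := hS0 (2 ^ 1)
    positivity
  · rw [zl_shift]
    have e : ∑ ρ ∈ nr h hθ T, Real.pi / |ρ.im| = Real.pi * S T := by
      rw [hS]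
      simp only
      rw [Finset.mul_sum]
      exact Finset.sum_congr rfl fun ρ _ => by ring
    rw [e]
    exact mul_le_mul_of_nonneg_left (hall T) Real.pi_pos.le

end

end Pool.Agent.N739.LL
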